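import Pool.Agent.Helper894_Mirror.Defs

/-!
# Trajectories: reversal, locality, symmetries, measurability
-/

open MeasureTheory ProbabilityTheory

namespace Pool.Agent.Helper894_Mirror

/-! ### Directions -/

/-- the four directions -/
def IsDir (d : V) : Prop := d = (1, 0) ∨ d = (-1, 0) ∨ d = (0, 1) ∨ d = (0, -1)

lemma IsDir.neg {d : V} (h : IsDir d) : IsDir (-d) := by
  rcases h with h | h | h | h <;> subst h <;> simp [IsDir]

lemma isDir_turn {d : V} (c : Cell) (h : IsDir d) : IsDir (turn c d) := by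
  rcases h with h | h | h | h <;> subst h <;> cases c <;> simp [IsDir, turn]

@[simp] lemma turn_turn (c : Cell) (d : V) : turn c (turn c d) = d := by
  cases c <;> simp [turn]

@[simp] lemma turn_neg (c : Cell) (d : V) : turn c (-d) = -turn c d := by
  cases c <;> simp [turn]

lemma exists_turn {a d : V} (ha : IsDir a) (hd : IsDir d) (h : d ≠ -a) : ∃ c, turn c a = d := by
  rcases ha with ha | ha | ha | ha <;> rcases hd with hd | hd | hd | hd <;> subst ha <;> subst hd <;>
    first
      | exact ⟨Cell.empty, rfl⟩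
      | exact ⟨Cell.ne, rfl⟩
      | exact ⟨Cell.nw, rfl⟩
      | exact absurd rfl h

/-! ### Trajectories -/

@[simp] lemma tr_zero (ω : V → Cell) (s : V × V) : tr ω s 0 = s := rfl

lemma tr_succ (ω : V → Cell) (s : V × V) (n : ℕ) : tr ω s (n + 1) = step ω (tr ω s n) :=
  Function.iterate_succ_apply' _ _ _

lemma tr_add (ω : V → Cell) (s : V × V) (m n : ℕ) : tr ω s (m + n) = tr ω (tr ω s m) n := by
  unfold tr
  rw [Nat.add_comm, Function.iterate_add_apply]

lemma tr_fst_succ (ω : V → Cell) (s : V × V) (n : ℕ) :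
    (tr ω s (n + 1)).1 = (tr ω s n).1 + (tr ω s n).2 := by
  rw [tr_succ]; rfl

lemma tr_snd_succ (ω : V → Cell) (s : V × V) (n : ℕ) :
    (tr ω s (n + 1)).2 = turn (ω (tr ω s (n + 1)).1) (tr ω s n).2 := by
  rw [tr_succ]; rfl

lemma isDir_tr {ω : V → Cell} {s : V × V} (h : IsDir s.2) (n : ℕ) : IsDir (tr ω s n).2 := by
  induction n with
  | zero => exact h
  | succ n ih => rw [tr_snd_succ]; exact isDir_turn _ ih

/-- the reversed state -/
def rev (s : V × V) : V × V := (s.1 + s.2, -s.2)

@[simp] lemma rev_rev (s : V × V) : rev (rev s) = s := by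
  simp [rev]

@[simp] lemma rev_fst (s : V × V) : (rev s).1 = s.1 + s.2 := rfl

@[simp] lemma rev_snd (s : V × V) : (rev s).2 = -s.2 := rfl

lemma rev_injective : Function.Injective rev := fun a b h => by
  rw [← rev_rev a, ← rev_rev b, h]

lemma step_rev_step (ω : V → Cell) (s : V × V) : step ω (rev (step ω s)) = rev s := by
  simp [step, rev]

lemma tr_rev (ω : V → Cell) (s : V × V) (n i : ℕ) (h : i ≤ n) :
    tr ω (rev (tr ω s n)) i = rev (tr ω s (n - i)) := by
  induction i with
  | zero => simp
  | succ i ih =>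
    rw [tr_succ, ih (by omega)]
    have : n - i = (n - (i + 1)) + 1 := by omega
    rw [this, tr_succ, step_rev_step]

/-- the positions of the reversed trajectory -/
lemma tr_rev_fst (ω : V → Cell) (s : V × V) (n i : ℕ) (h : i ≤ n) :
    (tr ω (rev (tr ω s n)) i).1 = (tr ω s (n + 1 - i)).1 := by
  rw [tr_rev ω s n i h, rev_fst, ← tr_fst_succ]
  congr 2
  omega

lemma tr_rev_fst_last (ω : V → Cell) (s : V × V) (n : ℕ) :
    (tr ω (rev (tr ω s n)) (n + 1)).1 = s.1 := by
  rw [tr_fst_succ, tr_rev ω s n n le_rfl]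
  simp

/-! ### Hitting -/

/-- The ray which starts in the state `s` reaches the set `T` (at a time at least `1`) and all
the vertices visited strictly before (and after time `0`) lie in `U`. -/
def Hit (ω : V → Cell) (s : V × V) (U T : Set V) : Prop :=
  ∃ n, 1 ≤ n ∧ (tr ω s n).1 ∈ T ∧ ∀ k, 1 ≤ k → k < n → (tr ω s k).1 ∈ U

lemma tr_congr {ω ω' : V → Cell} {s : V × V} {U : Set V} {n : ℕ}
    (hU : ∀ k, 1 ≤ k → k < n → (tr ω s k).1 ∈ U) (h : ∀ v ∈ U, ω v = ω' v) :
    ∀ k, k < n → tr ω s k = tr ω' s k := by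
  intro k
  induction k with
  | zero => intro _; rfl
  | succ k ih =>
    intro hk
    have h1 := ih (by omega)
    have h2 := hU (k + 1) (by omega) hk
    rw [tr_fst_succ] at h2
    rw [tr_succ, tr_succ, ← h1]
    unfold step
    rw [h _ h2]

lemma tr_congr_fst {ω ω' : V → Cell} {s : V × V} {U : Set V} {n : ℕ}
    (hU : ∀ k, 1 ≤ k → k < n → (tr ω s k).1 ∈ U) (h : ∀ v ∈ U, ω v = ω' v) :
    ∀ k, k ≤ n → (tr ω s k).1 = (tr ω' s k).1 := by
  intro k hk
  rcases k with _ | k
  · rfl
  · rw [tr_fst_succ, tr_fst_succ, tr_congr hU h k (by omega)]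

lemma Hit.congr {ω ω' : V → Cell} {s : V × V} {U T : Set V} (h : ∀ v ∈ U, ω v = ω' v)
    (hh : Hit ω s U T) : Hit ω' s U T := by
  obtain ⟨n, hn, hT, hU⟩ := hh
  refine ⟨n, hn, ?_, fun k hk hkn => ?_⟩
  · rw [← tr_congr_fst hU h n le_rfl]; exact hT
  · rw [← tr_congr_fst hU h k hkn.le]; exact hU k hk hkn

/-- a set of environments which depends only on the states of the vertices in `S` -/
def DepOn (A : Set (V → Cell)) (S : Set V) : Prop :=
  ∀ ω ω' : V → Cell, (∀ v ∈ S, ω v = ω' v) → ω ∈ A → ω' ∈ A

lemma DepOn.mono {A : Set (V → Cell)} {S S' : Set V} (h : DepOn A S) (hS : S ⊆ S') :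
    DepOn A S' := fun ω ω' hω => h ω ω' fun v hv => hω v (hS hv)

lemma DepOn.inter {A B : Set (V → Cell)} {S : Set V} (h : DepOn A S) (h' : DepOn B S) :
    DepOn (A ∩ B) S := fun ω ω' hω hA => ⟨h ω ω' hω hA.1, h' ω ω' hω hA.2⟩

lemma depOn_hit (s : V × V) (U T : Set V) : DepOn {ω | Hit ω s U T} U :=
  fun _ _ h hh => hh.congr h

/-! ### Symmetries -/

/-- A symmetry of the model: `e` acts on the vertices, `L` on the directions and `τ` on the states
of the vertices. -/
structure Sym where
  /-- action on vertices -/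
  e : V ≃ V
  /-- action on directions -/
  L : V → V
  /-- action on states -/
  τ : Cell → Cell
  map_add : ∀ x d, e (x + d) = e x + L d
  map_turn : ∀ c d, turn (τ c) (L d) = L (turn c d)
  law : ∀ p, (cellLaw p).map τ = cellLaw p

/-- the action of a symmetry on environments -/
def Sym.act (g : Sym) (ω : V → Cell) : V → Cell := fun v => g.τ (ω (g.e.symm v))

lemma Sym.step_act (g : Sym) (ω : V → Cell) (s : V × V) :
    step (g.act ω) (g.e s.1, g.L s.2) = (g.e (step ω s).1, g.L (step ω s).2) := by
  simp [step, Sym.act, ← g.map_add, g.map_turn]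

lemma Sym.tr_act (g : Sym) (ω : V → Cell) (s : V × V) (n : ℕ) :
    tr (g.act ω) (g.e s.1, g.L s.2) n = (g.e (tr ω s n).1, g.L (tr ω s n).2) := by
  induction n with
  | zero => rfl
  | succ n ih => rw [tr_succ, ih, tr_succ, g.step_act]

lemma Sym.hit_act (g : Sym) (ω : V → Cell) (s : V × V) (U T : Set V) :
    Hit (g.act ω) (g.e s.1, g.L s.2) U T ↔ Hit ω s (g.e ⁻¹' U) (g.e ⁻¹' T) := by
  simp only [Hit, g.tr_act, Set.mem_preimage]

lemma Sym.measurable_act (g : Sym) : Measurable g.act := by
  refine measurable_pi_lambda _ fun v => ?_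
  exact (measurable_from_top).comp (measurable_pi_apply (g.e.symm v))

lemma Sym.map_act (g : Sym) (p : unitInterval) : (mirrorLaw p).map g.act = mirrorLaw p := by
  have h1 : (mirrorLaw p).map (fun (ω : V → Cell) (v : V) => ω (g.e.symm v)) = mirrorLaw p := by
    have := Measure.map_infinitePi_infinitePi_of_inj (P := fun _ : V => cellLaw p)
      (f := fun v : V => g.e.symm v) g.e.symm.injective
    exact this
  have h2 : (mirrorLaw p).map (fun (ω : V → Cell) (v : V) => g.τ (ω v)) = mirrorLaw p := by
    have := Measure.infinitePi_map_pi (fun _ : V => cellLaw p) (f := fun _ : V => g.τ)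
      (fun _ => measurable_from_top)
    rw [mirrorLaw, this]
    simp only [g.law p]
  have h3 : g.act = (fun (ω : V → Cell) (v : V) => g.τ (ω v)) ∘
      (fun (ω : V → Cell) (v : V) => ω (g.e.symm v)) := rfl
  rw [h3, ← Measure.map_map, h1, h2]
  · exact measurable_pi_lambda _ fun v => (measurable_from_top).comp (measurable_pi_apply v)
  · exact measurable_pi_lambda _ fun v => measurable_pi_apply _

lemma Sym.measurePreserving (g : Sym) (p : unitInterval) :
    MeasurePreserving g.act (mirrorLaw p) (mirrorLaw p) :=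
  ⟨g.measurable_act, g.map_act p⟩

/-- translation -/
def Sym.trans (a : V) : Sym where
  e := Equiv.addRight a
  L := id
  τ := id
  map_add x d := by simp [add_right_comm]
  map_turn c d := rfl
  law p := Measure.map_id

/-- exchange of the two kinds of mirrors -/
def flip : Cell → Cell
  | .empty => .empty
  | .ne => .nw
  | .nw => .ne

lemma map_flip (p : unitInterval) : (cellLaw p).map flip = cellLaw p := by
  have hm : Measurable flip := measurable_from_top
  simp only [cellLaw]
  rw [Measure.map_add _ _ hm, Measure.map_add _ _ hm, Measure.map_smul, Measure.map_smul,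
    Measure.map_smul, Measure.map_dirac' hm, Measure.map_dirac' hm, Measure.map_dirac' hm]
  simp only [flip]
  rw [add_assoc, add_assoc, add_comm (ENNReal.ofReal ((p : ℝ) / 2) • Measure.dirac Cell.nw)]

/-- the reflection `(x, y) ↦ (y, x)` followed by the translation by `a` -/
def Sym.diag (a : V) : Sym where
  e := (Equiv.prodComm ℤ ℤ).trans (Equiv.addRight a)
  L d := (d.2, d.1)
  τ := id
  map_add x d := by
    ext <;> simp <;> ring
  map_turn c d := by cases c <;> simp [turn]
  law p := Measure.map_id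

/-- the reflection `(x, y) ↦ (c - x, y)` -/
def Sym.reflX (c : ℤ) : Sym where
  e := (Equiv.subLeft c).prodCongr (Equiv.refl ℤ)
  L d := (-d.1, d.2)
  τ := flip
  map_add x d := by
    ext <;> simp; ring
  map_turn c d := by cases c <;> simp [turn, flip]
  law p := map_flip p

/-- the reflection `(x, y) ↦ (x, c - y)` -/
def Sym.reflY (c : ℤ) : Sym where
  e := (Equiv.refl ℤ).prodCongr (Equiv.subLeft c)
  L d := (d.1, -d.2)
  τ := flip
  map_add x d := by
    ext <;> simp; ring
  map_turn c d := by cases c <;> simp [turn, flip]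
  law p := map_flip p

end Pool.Agent.Helper894_Mirror
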