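import Pool.Agent.Helper894_Mirror.Rec

/-!
# The polynomial bound for the probability of reaching row `n`
-/

open MeasureTheory ProbabilityTheory

namespace Pool.Agent.Helper894_Mirror

lemma exists_small {q : ℕ → ℝ} {J : ℕ} (hJ : 2 ≤ J) (h1 : q 1 ≤ 1) (hq : 0 ≤ q J) :
    ∃ j, 1 ≤ j ∧ j < J ∧ (J - 1 : ℝ) * (q j - q (j + 1)) ≤ 1 := by
  by_contra hcon
  push Not at hcon
  have hJ' : (0 : ℝ) < J - 1 := by
    have : (2 : ℝ) ≤ J := by exact_mod_cast hJ
    linarith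
  have h2 : ∑ j ∈ Finset.Ico 1 J, ((J - 1 : ℝ) * (q j - q (j + 1))) = (J - 1) * (q 1 - q J) := by
    rw [← Finset.mul_sum]
    congr 1
    have h3 := Finset.sum_Ico_eq_sum_range (fun j => q j - q (j + 1)) 1 J
    rw [h3]
    have h4 := Finset.sum_range_sub' (fun j => q (1 + j)) (J - 1)
    have h5 : 1 + (J - 1) = J := by omega
    simp only [add_zero, h5] at h4
    rw [← h4]
    refine Finset.sum_congr rfl fun j _ => ?_
    rw [add_assoc]
  have h3 : ∑ j ∈ Finset.Ico 1 J, (1 : ℝ) < ∑ j ∈ Finset.Ico 1 J,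
      ((J - 1 : ℝ) * (q j - q (j + 1))) := by
    refine Finset.sum_lt_sum_of_nonempty ?_ ?_
    · exact Finset.nonempty_Ico.mpr (by omega)
    · intro j hj
      rw [Finset.mem_Ico] at hj
      exact hcon j hj.1 hj.2
  rw [h2, Finset.sum_const, Nat.card_Ico, nsmul_eq_mul, mul_one, Nat.cast_sub (by omega)] at h3
  have h4 : q 1 - q J ≤ 1 := by linarith
  have h5 : (J - 1 : ℝ) * (q 1 - q J) ≤ (J - 1 : ℝ) * 1 :=
    mul_le_mul_of_nonneg_left h4 hJ'.le
  push_cast at h3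
  linarith

/-- lower bound for the probability of reaching the side of the box -/
lemma al_lower {p : unitInterval} (h0 : (0 : ℝ) < p) (h1 : (p : ℝ) < 1) {c : ℝ} (hc : 0 < c)
    (hc1 : c ≤ 1) {X J : ℕ} (hX : 1 ≤ X) (hX3 : (X : ℝ) * c ≤ 3) (hJ : 2 ≤ J)
    (hJc : 16 ≤ c ^ 2 * (J - 1)) (hcY : c ≤ cc p ((2 * X * J : ℕ) : ℤ)) :
    c ^ 4 / (288 * KK p) ≤ al p X ((2 * X * J : ℕ) : ℤ) := by
  have hK := KK_ge h0 h1
  set Y : ℤ := ((2 * X * J : ℕ) : ℤ) with hY
  have hX' : (1 : ℤ) ≤ X := by exact_mod_cast hX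
  have hY1 : 1 ≤ Y := by
    rw [hY]
    have : 1 ≤ 2 * X * J := by nlinarith
    exact_mod_cast this
  have hal := al_nonneg p X Y
  rw [div_le_iff₀ (by linarith)]
  rcases le_or_gt (c / 2) (qq p X Y) with hq | hq
  · obtain ⟨j, hj1, hjJ, hj⟩ := exists_small (q := fun j => qq p X ((2 * X * j : ℕ) : ℤ)) hJ
      (qq_le_one _ _ _) (qq_nonneg _ _ _)
    have hjY : ((2 * X * (j + 1) : ℕ) : ℤ) ≤ Y := by
      rw [hY]
      exact_mod_cast Nat.mul_le_mul_left _ hjJ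
    have hj0 : (1 : ℤ) ≤ ((2 * X * j : ℕ) : ℤ) := by
      have : 1 ≤ 2 * X * j := by nlinarith
      exact_mod_cast this
    have e := case2 h0 h1 (y := ((2 * X * j : ℕ) : ℤ)) (y' := ((2 * X * (j + 1) : ℕ) : ℤ))
      (Y := Y) hX' hj0 (by push_cast; ring_nf; exact le_refl _) hjY
    have hqj : c / 2 ≤ qq p X ((2 * X * j : ℕ) : ℤ) := by
      refine hq.trans (qq_anti p hj0 (le_trans ?_ hjY))
      exact_mod_cast Nat.mul_le_mul_left _ (Nat.le_succ j)
    set a := qq p X ((2 * X * j : ℕ) : ℤ) with ha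
    set b := qq p X ((2 * X * (j + 1) : ℕ) : ℤ) with hb
    have hab : 16 * (a - b) ≤ c ^ 2 := by
      have hJ0 : (0 : ℝ) < J - 1 := by
        have : (2 : ℝ) ≤ J := by exact_mod_cast hJ
        linarith
      rcases le_or_gt (a - b) 0 with h2 | h2
      · nlinarith
      · have h3 : 16 * (a - b) ≤ c ^ 2 * (J - 1) * (a - b) :=
          mul_le_mul_of_nonneg_right hJc h2.le
        have h4 : c ^ 2 * ((J - 1 : ℝ) * (a - b)) ≤ c ^ 2 * 1 :=
          mul_le_mul_of_nonneg_left hj (by positivity)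
        linarith
    have h5 : c ^ 2 / 4 ≤ a ^ 2 := by nlinarith
    have h6 : c ^ 2 / 8 ≤ (2 * (X : ℝ)) ^ 2 * KK p * al p X Y := by
      have : c ^ 2 / 8 ≤ a ^ 2 - 2 * (a - b) := by linarith
      refine this.trans (le_trans e (le_of_eq ?_))
      push_cast
      ring
    have h7 : c ^ 2 * (c ^ 2 / 8) ≤ c ^ 2 * ((2 * (X : ℝ)) ^ 2 * KK p * al p X Y) :=
      mul_le_mul_of_nonneg_left h6 (by positivity)
    have h8 : c ^ 2 * ((2 * (X : ℝ)) ^ 2 * KK p * al p X Y) =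
        4 * ((X : ℝ) * c) ^ 2 * (KK p * al p X Y) := by ring
    have h9 : ((X : ℝ) * c) ^ 2 ≤ 3 ^ 2 := by
      have : 0 ≤ (X : ℝ) * c := by positivity
      nlinarith
    have h10 : 0 ≤ KK p * al p X Y := by positivity
    have h11 : 4 * ((X : ℝ) * c) ^ 2 * (KK p * al p X Y) ≤ 4 * 3 ^ 2 * (KK p * al p X Y) := by
      refine mul_le_mul_of_nonneg_right ?_ h10
      linarith
    nlinarith
  · have e := case1 p hX' hY1
    have h2 : c / 4 ≤ al p X Y := by linarith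
    have h3 : c ^ 4 ≤ c := by
      have : c ^ 4 = c * c ^ 3 := by ring
      rw [this]
      exact mul_le_of_le_one_right hc.le (pow_le_one₀ hc.le hc1)
    have h4 : al p X Y ≤ al p X Y * (288 * KK p) / 288 := by
      have : al p X Y * (288 * KK p) / 288 = al p X Y * KK p := by ring
      rw [this]
      exact le_mul_of_one_le_right hal hK
    linarith

/-- one step of the iteration -/
lemma drop {p : unitInterval} (h1 : (p : ℝ) < 1) {c : ℝ}
    {X : ℕ} (hX : 1 ≤ X) (hX2 : 2 ≤ (X : ℝ) * c) {Y h : ℤ} (hY : 1 ≤ Y) (hh : 1 ≤ h)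
    (hch : c ≤ cc p h) :
    cc p (Y + h) + c / 2 * ((1 - p) * al p X Y ^ 2 / Y) ≤ cc p h := by
  have e1 := rec_step (p := p) hY hh (Finset.Ico (1 : ℤ) X)
  have e2 := pair_sum p Y h (N := X)
  have hX0 : (0 : ℝ) < X := by exact_mod_cast hX
  have hYR : (0 : ℝ) < Y := by exact_mod_cast (by omega : (0 : ℤ) < Y)
  set ρ : ℤ → ℝ := fun s => (mirrorLaw p).real (BB Y h 0 ∩ BB Y h (2 * s)) with hρ
  have e3 : c / 2 ≤ ∑ s ∈ Finset.Ico (1 : ℤ) X, ρ s := by
    by_contra hcon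
    push Not at hcon
    have h2 : (X : ℝ) * (c / 2) < (X : ℝ) * (cc p h - ∑ s ∈ Finset.Ico (1 : ℤ) X, ρ s) := by
      refine mul_lt_mul_of_pos_left ?_ hX0
      linarith
    linarith
  set T := (1 - (p : ℝ)) * al p X Y ^ 2 / Y with hT
  have hT0 : 0 ≤ T := by
    have : 0 ≤ 1 - (p : ℝ) := by linarith
    positivity
  have e4 : ∀ s ∈ Finset.Ico (1 : ℤ) X, ρ s * T ≤ ρ s * (mirrorLaw p).real (Arc s Y) := by
    intro s hs
    rw [Finset.mem_Ico] at hs
    refine mul_le_mul_of_nonneg_left ?_ measureReal_nonneg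
    rw [hT, div_le_iff₀ hYR, mul_comm ((mirrorLaw p).real (Arc s Y))]
    exact arc_lower p hs.1 hs.2.le hY
  have e5 := Finset.sum_le_sum e4
  rw [← Finset.sum_mul] at e5
  have e6 : c / 2 * T ≤ (∑ s ∈ Finset.Ico (1 : ℤ) X, ρ s) * T :=
    mul_le_mul_of_nonneg_right e3 hT0
  linarith

/-- polynomial decay of the probability of reaching row `n` before coming back to row `0` -/
theorem cc_bound {p : unitInterval} (h0 : (0 : ℝ) < p) (h1 : (p : ℝ) < 1) {n : ℕ} (hn : 1 ≤ n) :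
    (n : ℝ) * (1 - p) * cc p n ^ 15 ≤ 6 * 108 ^ 2 * 288 ^ 2 * KK p ^ 2 := by
  have hK := KK_ge h0 h1
  set c := cc p n with hcdef
  have hp : 0 < 1 - (p : ℝ) := by linarith
  have hp1 : 1 - (p : ℝ) ≤ 1 := by linarith
  have hn0 : (0 : ℝ) < n := by exact_mod_cast hn
  rcases (cc_nonneg p n).eq_or_lt with hc0 | hc
  · rw [hcdef, ← hc0]
    have : 0 ≤ 6 * 108 ^ 2 * 288 ^ 2 * KK p ^ 2 := by positivity
    simpa using this
  rw [← hcdef] at hc
  have hc1 : c ≤ 1 := cc_le_one p n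
  set X : ℕ := ⌈2 / c⌉₊ with hXdef
  set J : ℕ := ⌈16 / c ^ 2⌉₊ + 1 with hJdef
  have hX2 : 2 ≤ (X : ℝ) * c := by
    have : 2 / c ≤ (X : ℝ) := Nat.le_ceil _
    rwa [div_le_iff₀ hc] at this
  have hX3 : (X : ℝ) * c ≤ 3 := by
    have h2 : (X : ℝ) < 2 / c + 1 := Nat.ceil_lt_add_one (by positivity)
    have h3 : (X : ℝ) * c < (2 / c + 1) * c := mul_lt_mul_of_pos_right h2 hc
    have h4 : (2 / c + 1) * c = 2 + c := by field_simp
    linarith
  have hX1 : 1 ≤ X := by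
    rw [hXdef, Nat.one_le_ceil_iff]
    positivity
  have hJ1 : 1 ≤ ⌈16 / c ^ 2⌉₊ := by
    rw [Nat.one_le_ceil_iff]
    positivity
  have hJ : 2 ≤ J := by omega
  have hJc : 16 ≤ c ^ 2 * (J - 1) := by
    have h2 : 16 / c ^ 2 ≤ (⌈16 / c ^ 2⌉₊ : ℝ) := Nat.le_ceil _
    rw [div_le_iff₀ (by positivity)] at h2
    rw [hJdef]
    push_cast
    linarith
  have hJ18 : (J : ℝ) * c ^ 2 ≤ 18 := by
    have h2 : (⌈16 / c ^ 2⌉₊ : ℝ) < 16 / c ^ 2 + 1 := Nat.ceil_lt_add_one (by positivity)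
    have h3 : (⌈16 / c ^ 2⌉₊ : ℝ) * c ^ 2 < (16 / c ^ 2 + 1) * c ^ 2 :=
      mul_lt_mul_of_pos_right h2 (by positivity)
    have h4 : (16 / c ^ 2 + 1) * c ^ 2 = 16 + c ^ 2 := by field_simp
    have h5 : c ^ 2 ≤ 1 := pow_le_one₀ hc.le hc1
    rw [hJdef]
    push_cast
    linarith
  set y : ℕ := 2 * X * J with hy
  have hyc : (y : ℝ) * c ^ 3 ≤ 108 := by
    have h2 : (y : ℝ) * c ^ 3 = 2 * ((X : ℝ) * c) * ((J : ℝ) * c ^ 2) := by
      rw [hy]; push_cast; ring
    rw [h2]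
    have h3 : 0 ≤ (X : ℝ) * c := by positivity
    have h4 : 0 ≤ (J : ℝ) * c ^ 2 := by positivity
    nlinarith
  have hy1 : 1 ≤ y := by
    rw [hy]; nlinarith
  have hy0 : (1 : ℝ) ≤ y := by exact_mod_cast hy1
  rcases lt_or_ge n y with hny | hny
  · -- the trivial case
    have h2 : (n : ℝ) ≤ y := by exact_mod_cast hny.le
    have h3 : (n : ℝ) * c ^ 3 ≤ 108 := by
      have : (n : ℝ) * c ^ 3 ≤ y * c ^ 3 := mul_le_mul_of_nonneg_right h2 (by positivity)
      linarith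
    have h4 : c ^ 12 ≤ 1 := pow_le_one₀ hc.le hc1
    have h5 : (n : ℝ) * (1 - p) * c ^ 15 = ((n : ℝ) * c ^ 3) * ((1 - p) * c ^ 12) := by ring
    have h6 : (1 - (p : ℝ)) * c ^ 12 ≤ 1 := mul_le_one₀ hp1 (by positivity) h4
    have h7 : 0 ≤ (1 - (p : ℝ)) * c ^ 12 := by positivity
    rw [h5]
    have h8 : ((n : ℝ) * c ^ 3) * ((1 - p) * c ^ 12) ≤ 108 * 1 :=
      mul_le_mul h3 h6 h7 (by norm_num)
    nlinarith
  · -- the main case
    have hcy : c ≤ cc p (y : ℤ) :=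
      cc_anti p (by exact_mod_cast hy1) (by exact_mod_cast hny)
    have hal := al_lower h0 h1 hc hc1 hX1 hX3 hJ hJc hcy
    rw [← hy] at hal
    set a : ℝ := c ^ 4 / (288 * KK p) with ha
    have ha0 : 0 < a := by positivity
    have ha1 : a ≤ 1 := by
      rw [ha, div_le_one (by positivity)]
      have : c ^ 4 ≤ 1 := pow_le_one₀ hc.le hc1
      linarith
    set D : ℝ := c / 2 * ((1 - p) * a ^ 2 / y) with hD
    have hD0 : 0 < D := by positivity
    have hD1 : D ≤ 1 := by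
      have h2 : (1 - (p : ℝ)) * a ^ 2 / y ≤ 1 := by
        rw [div_le_one (by positivity)]
        have : (1 - (p : ℝ)) * a ^ 2 ≤ 1 := mul_le_one₀ hp1 (by positivity)
          (pow_le_one₀ ha0.le ha1)
        linarith
      have h3 : 0 ≤ (1 - (p : ℝ)) * a ^ 2 / y := by positivity
      rw [hD]
      nlinarith
    have hiter : ∀ k : ℕ, 1 + k * y ≤ n → cc p ((1 + k * y : ℕ) : ℤ) ≤ 1 - k * D := by
      intro k
      induction k with
      | zero => intro _; simpa using cc_le_one p 1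
      | succ k ih =>
        intro hk
        have hk' : 1 + k * y ≤ n := le_trans (by nlinarith) hk
        have h2 := ih hk'
        have h3 : c ≤ cc p ((1 + k * y : ℕ) : ℤ) :=
          cc_anti p (by exact_mod_cast (by omega : 1 ≤ 1 + k * y)) (by exact_mod_cast hk')
        have h4 := drop h1 hX1 hX2 (Y := (y : ℤ)) (h := ((1 + k * y : ℕ) : ℤ))
          (by exact_mod_cast hy1) (by exact_mod_cast (by omega : 1 ≤ 1 + k * y)) h3
        have h5 : ((y : ℤ) + ((1 + k * y : ℕ) : ℤ)) = ((1 + (k + 1) * y : ℕ) : ℤ) := by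
          push_cast; ring
        rw [h5] at h4
        have h6 : D ≤ c / 2 * ((1 - p) * al p X (y : ℤ) ^ 2 / ((y : ℤ) : ℝ)) := by
          rw [hD]
          push_cast
          gcongr
        push_cast at h2 h4 h6 ⊢
        linarith
    set k := (n - 1) / y with hk
    have hk1 : 1 + k * y ≤ n := by
      have : (n - 1) / y * y ≤ n - 1 := Nat.div_mul_le_self _ _
      rw [← hk] at this
      omega
    have hk2 : n - 1 < (k + 1) * y := by
      have := Nat.lt_mul_div_succ (n - 1) (by omega : 0 < y)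
      rw [hk]
      linarith
    have h2 := hiter k hk1
    have h3 : c ≤ cc p ((1 + k * y : ℕ) : ℤ) :=
      cc_anti p (by exact_mod_cast (by omega : 1 ≤ 1 + k * y)) (by exact_mod_cast hk1)
    have h4 : (k : ℝ) * D ≤ 1 := by linarith
    have h5 : (n : ℝ) ≤ (k + 1) * y := by
      have : n ≤ (k + 1) * y := by omega
      exact_mod_cast this
    have h6 : (n : ℝ) * D ≤ 2 * y := by
      have h7 : (n : ℝ) * D ≤ ((k + 1) * y) * D := mul_le_mul_of_nonneg_right h5 hD0.le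
      have h8 : ((k + 1 : ℝ) * y) * D = (k * D + D) * y := by ring
      have h9 : ((k : ℝ) * D + D) * y ≤ 2 * y := by
        refine mul_le_mul_of_nonneg_right ?_ (by positivity)
        linarith
      linarith
    -- final computation
    have h7 : (n : ℝ) * (1 - p) * (c * a ^ 2) ≤ 4 * y ^ 2 := by
      have h8 : (n : ℝ) * D * (2 * y) = (n : ℝ) * (1 - p) * (c * a ^ 2) := by
        rw [hD]; field_simp
      have h9 : (n : ℝ) * D * (2 * y) ≤ 2 * y * (2 * y) :=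
        mul_le_mul_of_nonneg_right h6 (by positivity)
      linarith
    have h8 : (n : ℝ) * (1 - p) * (c * a ^ 2) * c ^ 6 ≤ 4 * 108 ^ 2 := by
      have h9 : (n : ℝ) * (1 - p) * (c * a ^ 2) * c ^ 6 ≤ 4 * y ^ 2 * c ^ 6 :=
        mul_le_mul_of_nonneg_right h7 (by positivity)
      have h10 : 4 * (y : ℝ) ^ 2 * c ^ 6 = 4 * (y * c ^ 3) ^ 2 := by ring
      have h11 : ((y : ℝ) * c ^ 3) ^ 2 ≤ 108 ^ 2 :=
        pow_le_pow_left₀ (by positivity) hyc 2
      linarith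
    have h9 : (n : ℝ) * (1 - p) * (c * a ^ 2) * c ^ 6 * (288 ^ 2 * KK p ^ 2) =
        (n : ℝ) * (1 - p) * c ^ 15 := by
      rw [ha]; field_simp
    rw [← h9]
    have h10 : (n : ℝ) * (1 - p) * (c * a ^ 2) * c ^ 6 * (288 ^ 2 * KK p ^ 2) ≤
        4 * 108 ^ 2 * (288 ^ 2 * KK p ^ 2) :=
      mul_le_mul_of_nonneg_right h8 (by positivity)
    have h11 : 0 ≤ KK p ^ 2 := by positivity
    nlinarith

end Pool.Agent.Helper894_Mirror
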