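import Pool.Agent.Helper894_Mirror.Basic

/-!
# Two lattice paths which cross a rectangle in different directions have a common vertex
-/

namespace Pool.Agent.Helper894_Mirror

/-- discrete intermediate value theorem: first time at which the value `h` is reached -/
lemma exists_first {f : ℕ → ℤ} {n : ℕ} {h : ℤ} (h0 : f 0 < h) (hn : h ≤ f n)
    (hstep : ∀ k < n, f (k + 1) ≤ f k + 1) :
    ∃ m, 1 ≤ m ∧ m ≤ n ∧ f m = h ∧ ∀ k < m, f k < h := by
  classical
  have hex : ∃ k, h ≤ f k := ⟨n, hn⟩
  refine ⟨Nat.find hex, ?_, Nat.find_min' hex hn, ?_, fun k hk => ?_⟩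
  · rcases Nat.eq_zero_or_pos (Nat.find hex) with h1 | h1
    · have := Nat.find_spec hex
      rw [h1] at this
      omega
    · exact h1
  · have h1 := Nat.find_spec hex
    rcases Nat.eq_zero_or_pos (Nat.find hex) with h2 | h2
    · rw [h2] at h1; omega
    · have h3 := Nat.find_min hex (m := Nat.find hex - 1) (by omega)
      have h4 := Nat.find_min' hex hn
      have h5 := hstep (Nat.find hex - 1) (by omega)
      have h6 : Nat.find hex - 1 + 1 = Nat.find hex := by omega
      rw [h6] at h5
      omega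
  · have := Nat.find_min hex hk
    omega

/-- the indicator of the closed upper half-plane -/
def phi (u : V) : ℤ := if 0 ≤ u.2 then 1 else 0

/-- crossing number of a unit step through the half-line `x > 0`, `y = - 1 / 2` -/
def cr (u v : V) : ℤ := if 0 < u.1 then phi v - phi u else 0

lemma cr_square {u a b : V} (ha : IsDir a) (hb : IsDir b) (h0 : u ≠ 0) (h1 : u + a ≠ 0)
    (h2 : u + b ≠ 0) (h3 : u + a + b ≠ 0) :
    cr u (u + a) + cr (u + a) (u + a + b) = cr u (u + b) + cr (u + b) (u + a + b) := by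
  obtain ⟨x, y⟩ := u
  simp only [ne_eq, Prod.ext_iff, Prod.fst_add, Prod.snd_add, Prod.fst_zero, Prod.snd_zero]
    at h0 h1 h2 h3
  rcases ha with ha | ha | ha | ha <;> rcases hb with hb | hb | hb | hb <;> subst ha <;>
    subst hb <;> simp only [cr, phi, Prod.fst_add, Prod.snd_add] at * <;> split_ifs <;> omega

/-- Two lattice paths which cross a rectangle in different directions have a common vertex. -/
theorem exists_common {f g : ℕ → V} {m n : ℕ}
    (hf : ∀ k < m, IsDir (f (k + 1) - f k)) (hg : ∀ k < n, IsDir (g (k + 1) - g k))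
    (h1 : ∀ j ≤ n, (f 0).2 < (g j).2) (h2 : ∀ j ≤ n, (g j).2 < (f m).2)
    (h3 : ∀ i ≤ m, (g 0).1 < (f i).1) (h4 : ∀ i ≤ m, (f i).1 < (g n).1) :
    ∃ i ≤ m, ∃ j ≤ n, f i = g j := by
  by_contra hcon
  push Not at hcon
  set D : ℕ → ℕ → V := fun i j => f i - g j with hD
  have hne : ∀ i ≤ m, ∀ j ≤ n, D i j ≠ 0 := fun i hi j hj => sub_ne_zero.mpr (hcon i hi j hj)
  have hsq : ∀ i < m, ∀ j < n, cr (D i j) (D (i + 1) j) + cr (D (i + 1) j) (D (i + 1) (j + 1)) =
      cr (D i j) (D i (j + 1)) + cr (D i (j + 1)) (D (i + 1) (j + 1)) := by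
    intro i hi j hj
    have e1 : D (i + 1) j = D i j + (f (i + 1) - f i) := by simp only [hD]; abel
    have e2 : D i (j + 1) = D i j + -(g (j + 1) - g j) := by simp only [hD]; abel
    have e3 : D (i + 1) (j + 1) = D i j + (f (i + 1) - f i) + -(g (j + 1) - g j) := by
      simp only [hD]; abel
    have := cr_square (u := D i j) (hf i hi) (hg j hj).neg (hne i hi.le j hj.le)
      (by rw [← e1]; exact hne _ (by omega) _ (by omega))
      (by rw [← e2]; exact hne _ (by omega) _ (by omega))
      (by rw [← e3]; exact hne _ (by omega) _ (by omega))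
    rw [e1, e2, e3]
    exact this
  have hsum : ∑ i ∈ Finset.range m, ∑ j ∈ Finset.range n,
      ((cr (D i (j + 1)) (D (i + 1) (j + 1)) - cr (D i j) (D (i + 1) j)) -
        (cr (D (i + 1) j) (D (i + 1) (j + 1)) - cr (D i j) (D i (j + 1)))) = 0 := by
    refine Finset.sum_eq_zero fun i hi => Finset.sum_eq_zero fun j hj => ?_
    have := hsq i (Finset.mem_range.mp hi) j (Finset.mem_range.mp hj)
    linarith
  simp only [Finset.sum_sub_distrib] at hsum
  have s1 : ∑ i ∈ Finset.range m, (∑ j ∈ Finset.range n, cr (D i (j + 1)) (D (i + 1) (j + 1)) -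
      ∑ j ∈ Finset.range n, cr (D i j) (D (i + 1) j)) =
      ∑ i ∈ Finset.range m, (cr (D i n) (D (i + 1) n) - cr (D i 0) (D (i + 1) 0)) := by
    refine Finset.sum_congr rfl fun i _ => ?_
    rw [← Finset.sum_sub_distrib, Finset.sum_range_sub (fun j => cr (D i j) (D (i + 1) j))]
  have s2 : ∑ i ∈ Finset.range m, (∑ j ∈ Finset.range n, cr (D (i + 1) j) (D (i + 1) (j + 1)) -
      ∑ j ∈ Finset.range n, cr (D i j) (D i (j + 1))) =
      ∑ j ∈ Finset.range n, (cr (D m j) (D m (j + 1)) - cr (D 0 j) (D 0 (j + 1))) := by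
    rw [Finset.sum_range_sub (fun i => ∑ j ∈ Finset.range n, cr (D i j) (D i (j + 1))),
      Finset.sum_sub_distrib]
  have s1' : ∑ i ∈ Finset.range m, (cr (D i n) (D (i + 1) n) - cr (D i 0) (D (i + 1) 0)) =
      -1 := by
    have e : ∀ i ∈ Finset.range m, cr (D i n) (D (i + 1) n) - cr (D i 0) (D (i + 1) 0) =
        (- phi (D (i + 1) 0)) - (- phi (D i 0)) := by
      intro i hi
      have hi' := Finset.mem_range.mp hi
      have a1 := h3 i hi'.le
      have a2 := h4 i hi'.le
      simp only [cr, hD, Prod.fst_sub]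
      rw [if_neg (by omega), if_pos (by omega)]
      ring
    rw [Finset.sum_congr rfl e, Finset.sum_range_sub (fun i => - phi (D i 0))]
    have b1 := h1 0 (by omega)
    have b2 := h2 0 (by omega)
    simp only [phi, hD, Prod.snd_sub]
    rw [if_pos (by omega), if_neg (by omega)]
    norm_num
  have s2' : ∑ j ∈ Finset.range n, (cr (D m j) (D m (j + 1)) - cr (D 0 j) (D 0 (j + 1))) = 0 := by
    refine Finset.sum_eq_zero fun j hj => ?_
    have hj' := Finset.mem_range.mp hj
    have b1 := h1 j hj'.le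
    have b1' := h1 (j + 1) (by omega)
    have b2 := h2 j hj'.le
    have b2' := h2 (j + 1) (by omega)
    simp only [cr, phi, hD, Prod.snd_sub, Prod.fst_sub]
    split_ifs <;> omega
  simp only [Finset.sum_sub_distrib] at s1 s2 s1' s2'
  linarith

end Pool.Agent.Helper894_Mirror
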