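import Mathlib

/-!
# The Lorentz mirror model on the square lattice: definitions

Vertices and directions are both elements of `ℤ × ℤ`; the first coordinate is the column
(it grows towards the east), the second one the row (it grows towards the north).
-/

open MeasureTheory

namespace Pool.Agent.Helper894_Mirror

/-- The three states of a vertex: empty, a NE mirror, a NW mirror. -/
inductive Cell
  | empty
  | ne
  | nw
  deriving DecidableEq

instance : Fintype Cell := ⟨{Cell.empty, Cell.ne, Cell.nw}, fun x => by cases x <;> simp⟩

instance : MeasurableSpace Cell := ⊤

instance : DiscreteMeasurableSpace Cell := ⟨fun _ => trivial⟩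

/-- Vertices of the square lattice (and directions). -/
abbrev V := ℤ × ℤ

/-- `turn c d` is the direction in which a ray arriving with direction `d` at a vertex in state
`c` leaves that vertex. An empty vertex changes nothing, a NE mirror exchanges north and east, and
south and west; a NW mirror exchanges north and west, and south and east. -/
def turn : Cell → V → V
  | .empty, d => d
  | .ne, d => (d.2, d.1)
  | .nw, d => (-d.2, -d.1)

/-- The law of the state of one vertex: empty with probability `1 - p`, a NE mirror with
probability `p / 2`, a NW mirror with probability `p / 2`. -/
noncomputable def cellLaw (p : unitInterval) : Measure Cell :=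
  ENNReal.ofReal (1 - (p : ℝ)) • Measure.dirac Cell.empty
    + ENNReal.ofReal ((p : ℝ) / 2) • Measure.dirac Cell.ne
    + ENNReal.ofReal ((p : ℝ) / 2) • Measure.dirac Cell.nw

instance (p : unitInterval) : IsProbabilityMeasure (cellLaw p) := by
  constructor
  have h0 : (0 : ℝ) ≤ p := p.2.1
  have h1 : (p : ℝ) ≤ 1 := p.2.2
  simp only [cellLaw, Measure.add_apply, Measure.smul_apply, smul_eq_mul, measure_univ, mul_one]
  rw [← ENNReal.ofReal_add (by linarith) (by linarith),
    ← ENNReal.ofReal_add (by linarith) (by linarith), ← ENNReal.ofReal_one]
  congr 1
  ring

/-- The law of the random environment: the states of the vertices are independent, each with law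
`cellLaw p`. -/
noncomputable def mirrorLaw (p : unitInterval) : Measure (V → Cell) :=
  Measure.infinitePi (fun _ => cellLaw p)

/-- One step of a ray in the environment `ω`. A state `(x, d)` means that the ray is at the
vertex `x` and leaves it in the direction `d`; it arrives at `x + d` and is turned there. -/
def step (ω : V → Cell) (s : V × V) : V × V :=
  (s.1 + s.2, turn (ω (s.1 + s.2)) s.2)

/-- The state after `n` steps of the ray which starts in the state `s`. -/
def tr (ω : V → Cell) (s : V × V) (n : ℕ) : V × V := (step ω)^[n] s

/-- The vertex visited at time `n` by the ray which starts at the origin and whose first step goes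
north, from `(0, 0)` to `(0, 1)`. -/
def pos (ω : V → Cell) (n : ℕ) : V := (tr ω ((0, 0), (0, 1)) n).1

end Pool.Agent.Helper894_Mirror
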