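import Pool.Agent.Helper894_Mirror.Cross

/-!
# Deterministic facts: surgery at a crossing, joining two rays, last passages
-/

namespace Pool.Agent.Helper894_Mirror

/-- the initial state: at the origin, going north -/
def st0 : V × V := ((0, 0), (0, 1))

lemma isDir_st0 : IsDir st0.2 := by simp [IsDir, st0]

lemma isDir_north : IsDir (((0 : ℤ), (1 : ℤ))) := by simp [IsDir]

section steps

variable {ω : V → Cell} {s : V × V}

lemma isDir_sub (h : IsDir s.2) (k : ℕ) : IsDir ((tr ω s (k + 1)).1 - (tr ω s k).1) := by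
  rw [tr_fst_succ]
  simpa using isDir_tr h k

lemma row_step (h : IsDir s.2) (k : ℕ) : (tr ω s (k + 1)).1.2 ≤ (tr ω s k).1.2 + 1 ∧
    (tr ω s k).1.2 ≤ (tr ω s (k + 1)).1.2 + 1 := by
  rw [tr_fst_succ]
  rcases isDir_tr (ω := ω) h k with h1 | h1 | h1 | h1 <;> (rw [h1]; simp; try omega)

lemma col_step (h : IsDir s.2) (k : ℕ) : (tr ω s (k + 1)).1.1 ≤ (tr ω s k).1.1 + 1 ∧
    (tr ω s k).1.1 ≤ (tr ω s (k + 1)).1.1 + 1 := by
  rw [tr_fst_succ]
  rcases isDir_tr (ω := ω) h k with h1 | h1 | h1 | h1 <;> (rw [h1]; simp; try omega)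

end steps

/-- two hittings of sets outside `U` happen at the same time -/
lemma Hit.inter {ω : V → Cell} {s : V × V} {U T T' : Set V} (h : Hit ω s U T) (h' : Hit ω s U T')
    (hT : ∀ v ∈ T, v ∉ U) (hT' : ∀ v ∈ T', v ∉ U) : ∃ v, v ∈ T ∧ v ∈ T' := by
  obtain ⟨n, hn, h1, h2⟩ := h
  obtain ⟨m, hm, h3, h4⟩ := h'
  rcases lt_trichotomy n m with h5 | h5 | h5
  · exact absurd (h4 n hn h5) (hT _ h1)
  · subst h5; exact ⟨_, h1, h3⟩
  · exact absurd (h2 m hm h5) (hT' _ h3)

/-- the ray reaches row `h` before it comes back to row `0` -/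
def Up (h : ℤ) : Set (V → Cell) := {ω | Hit ω st0 {v | 1 ≤ v.2 ∧ v.2 < h} {v | v.2 = h}}

lemma up_anti {h h' : ℤ} (h1 : 1 ≤ h) (hh : h ≤ h') : Up h' ⊆ Up h := by
  rintro ω ⟨n, hn, hT, hU⟩
  obtain ⟨m, hm1, hmn, hm, hlt⟩ := exists_first (f := fun k => (tr ω st0 k).1.2) (n := n) (h := h)
    (by simp [st0]; omega) (by simp only [Set.mem_ofPred_eq] at hT; omega)
    (fun k _ => (row_step isDir_st0 k).1)
  refine ⟨m, hm1, hm, fun k hk hkm => ⟨(hU k hk (by omega)).1, hlt k hkm⟩⟩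

/-- the ray reaches row `y` before it comes back to row `0` and before it leaves the strip
`|x| < X` -/
def Tube (X y : ℤ) : Set (V → Cell) :=
  {ω | Hit ω st0 {v | |v.1| < X ∧ 1 ≤ v.2 ∧ v.2 < y} {v | |v.1| < X ∧ v.2 = y}}

lemma tube_anti {X y y' : ℤ} (h1 : 1 ≤ y) (hh : y ≤ y') : Tube X y' ⊆ Tube X y := by
  rintro ω ⟨n, hn, hT, hU⟩
  obtain ⟨m, hm1, hmn, hm, hlt⟩ := exists_first (f := fun k => (tr ω st0 k).1.2) (n := n) (h := y)
    (by simp [st0]; omega) (by simp only [Set.mem_ofPred_eq] at hT; omega)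
    (fun k _ => (row_step isDir_st0 k).1)
  have hX : |(tr ω st0 m).1.1| < X := by
    rcases lt_or_eq_of_le hmn with h2 | h2
    · exact (hU m hm1 h2).1
    · rw [h2]; exact hT.1
  exact ⟨m, hm1, ⟨hX, hm⟩, fun k hk hkm =>
    ⟨(hU k hk (by omega)).1, (hU k hk (by omega)).2.1, hlt k hkm⟩⟩

/-- the same event for the horizontal strip `|y - X| < X`, for the ray which starts at `(x0, X)`
and goes east -/
def Tube' (X x0 y : ℤ) : Set (V → Cell) :=
  {ω | Hit ω ((x0, X), (1, 0)) {v | |v.2 - X| < X ∧ x0 + 1 ≤ v.1 ∧ v.1 < x0 + y}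
    {v | |v.2 - X| < X ∧ v.1 = x0 + y}}

/-- the ray reaches column `X` before it comes back to row `0`, without going above row `Y` -/
def Side (X Y : ℤ) : Set (V → Cell) :=
  {ω | Hit ω st0 {v | 1 ≤ v.2 ∧ v.2 ≤ Y} {v | v.1 = X ∧ 1 ≤ v.2 ∧ v.2 ≤ Y}}

/-- surgery at the crossing of a vertical and a horizontal ray -/
lemma surgery {ω : V → Cell} {X x0 y Y : ℤ} (hX : 1 ≤ X) (hx0 : x0 ≤ -X) (hy : 2 * X ≤ y)
    (hxy : X ≤ x0 + y) (hY : y ≤ Y) (hV : ω ∈ Tube X y) (hH : ω ∈ Tube' X x0 y) :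
    ∃ v : V, v ∈ Finset.Ioo (-X) X ×ˢ Finset.Ioo 0 (2 * X) ∧
      ∃ c, Function.update ω v c ∈ Side X Y := by
  classical
  obtain ⟨t1, ht1, hT1, hU1⟩ := hV
  obtain ⟨t2, ht2, hT2, hU2⟩ := hH
  simp only [Set.mem_ofPred_eq, abs_lt] at hT1 hT2 hU1 hU2
  set s2 : V × V := ((x0, X), (1, 0)) with hs2
  have hd2 : IsDir s2.2 := by simp [IsDir, hs2]
  set f : ℕ → V := fun k => (tr ω st0 k).1 with hf
  set g : ℕ → V := fun k => (tr ω s2 k).1 with hg
  have f0 : f 0 = (0, 0) := rfl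
  have g0 : g 0 = (x0, X) := rfl
  -- positions of the two paths
  have fX : ∀ k ≤ t1, -X < (f k).1 ∧ (f k).1 < X := by
    intro k hk
    rcases Nat.eq_zero_or_pos k with h | h
    · subst h; rw [f0]; simp; omega
    · rcases lt_or_eq_of_le hk with h' | h'
      · exact (hU1 k h h').1
      · subst h'; exact hT1.1
  have gX : ∀ k ≤ t2, 0 < (g k).2 ∧ (g k).2 < 2 * X := by
    intro k hk
    rcases Nat.eq_zero_or_pos k with h | h
    · subst h; rw [g0]; simp; omega
    · rcases lt_or_eq_of_le hk with h' | h'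
      · have := (hU2 k h h').1; simp only [hg]; omega
      · subst h'; have := hT2.1; simp only [hg]; omega
  have fy : (f t1).2 = y := hT1.2
  have gy : (g t2).1 = x0 + y := hT2.2
  have frow : ∀ k, 1 ≤ k → k < t1 → 1 ≤ (f k).2 ∧ (f k).2 < y := fun k h h' => (hU1 k h h').2
  obtain ⟨i, hi, j, hj, hij⟩ := exists_common (f := f) (g := g) (m := t1) (n := t2)
    (fun k _ => isDir_sub isDir_st0 k) (fun k _ => isDir_sub hd2 k)
    (fun j hj => by have := (gX j hj).1; rw [f0]; simpa using this)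
    (fun j hj => by have := (gX j hj).2; rw [fy]; omega)
    (fun i hi => by have := (fX i hi).1; rw [g0]; simp; omega)
    (fun i hi => by have := (fX i hi).2; rw [gy]; omega)
  set v := f i with hv
  have hv1 : -X < v.1 ∧ v.1 < X := fX i hi
  have hv2 := gX j hj
  rw [← hij] at hv2
  -- first visit of `f` to `v`, last visit of `g` to `v`
  have hex : ∃ k, f k = v := ⟨i, rfl⟩
  set k1 := Nat.find hex with hk1
  have hk1v : f k1 = v := Nat.find_spec hex
  have hk1i : k1 ≤ i := Nat.find_min' hex rfl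
  have hk1min : ∀ k < k1, f k ≠ v := fun k hk => Nat.find_min hex hk
  have hk1pos : 1 ≤ k1 := by
    rcases Nat.eq_zero_or_pos k1 with h | h
    · rw [h, f0] at hk1v; rw [← hk1v] at hv2; simp at hv2
    · exact h
  have hk1lt : k1 < t1 := by
    rcases lt_or_eq_of_le (hk1i.trans hi) with h | h
    · exact h
    · rw [h] at hk1v; rw [← hk1v, fy] at hv2; omega
  set k2 := Nat.findGreatest (fun k => g k = v) t2 with hk2
  have hk2v : g k2 = v := Nat.findGreatest_spec (P := fun k => g k = v) hj hij.symm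
  have hk2le : k2 ≤ t2 := Nat.findGreatest_le t2
  have hk2max : ∀ k, k2 < k → k ≤ t2 → g k ≠ v := fun k hk hk' =>
    Nat.findGreatest_is_greatest (P := fun k => g k = v) hk hk'
  have hk2lt : k2 < t2 := by
    rcases lt_or_eq_of_le hk2le with h | h
    · exact h
    · rw [h] at hk2v; rw [← hk2v, gy] at hv1; omega
  -- the two directions
  set a := (tr ω st0 (k1 - 1)).2 with ha
  set d := (tr ω s2 k2).2 with hd
  have hk11 : k1 - 1 + 1 = k1 := by omega
  have hpos1 : (tr ω st0 (k1 - 1)).1 + a = v := by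
    rw [ha, ← tr_fst_succ, hk11]; exact hk1v
  have hstate2 : tr ω s2 k2 = (v, d) := Prod.ext hk2v rfl
  have hda : d ≠ -a := by
    intro hda
    have h1 : tr ω s2 k2 = rev (tr ω st0 (k1 - 1)) := by
      rw [hstate2, hda]
      exact Prod.ext hpos1.symm rfl
    have h2 : ∀ l ≤ k1, g (k2 + l) = f (k1 - l) := by
      intro l hl
      simp only [hg, hf]
      rw [tr_add, h1]
      rcases lt_or_eq_of_le hl with h | h
      · rw [tr_rev_fst ω st0 (k1 - 1) l (by omega), hk11]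
      · have h3 := tr_rev_fst_last ω st0 (k1 - 1)
        rw [hk11] at h3
        rw [h, h3]
        simp
    rcases le_or_gt (k2 + k1) t2 with h3 | h3
    · have h4 := h2 k1 le_rfl
      have h5 := (gX _ h3).1
      rw [h4, Nat.sub_self, f0] at h5
      simp at h5
    · have h4 := h2 (t2 - k2) (by omega)
      have h5 : k2 + (t2 - k2) = t2 := by omega
      rw [h5] at h4
      have h6 := fX (k1 - (t2 - k2)) (by omega)
      rw [← h4, gy] at h6
      omega
  obtain ⟨c, hc⟩ := exists_turn (isDir_tr isDir_st0 (k1 - 1)) (isDir_tr hd2 k2) hda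
  refine ⟨v, ?_, c, ?_⟩
  · simp only [Finset.mem_product, Finset.mem_Ioo]
    exact ⟨hv1, hv2⟩
  set ω' := Function.update ω v c with hω'
  have hagree : ∀ u ∈ ({v}ᶜ : Set V), ω u = ω' u := by
    intro u hu
    rw [hω', Function.update_of_ne hu]
  -- the new path
  have n1 : ∀ k < k1, tr ω st0 k = tr ω' st0 k :=
    tr_congr (U := {v}ᶜ) (fun k _ hk' => hk1min k hk') hagree
  have n1' : ∀ k ≤ k1, f k = (tr ω' st0 k).1 :=
    tr_congr_fst (U := {v}ᶜ) (fun k _ hk' => hk1min k hk') hagree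
  have n2 : tr ω' st0 k1 = (v, d) := by
    rw [← hk11, tr_succ, ← n1 (k1 - 1) (by omega)]
    unfold step
    rw [← ha, hpos1, hω', Function.update_self, hc]
  have n3 : ∀ l ≤ t2 - k2, (tr ω' st0 (k1 + l)).1 = g (k2 + l) := by
    intro l hl
    rw [tr_add, n2, ← hstate2]
    have := tr_congr_fst (ω := ω) (ω' := ω') (s := tr ω s2 k2) (U := {v}ᶜ) (n := t2 - k2)
      (fun k hk hk' => by
        rw [← tr_add]
        exact hk2max _ (by omega) (by omega)) hagree l hl
    rw [← this, ← tr_add]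
  have hrow : ∀ k, 1 ≤ k → k ≤ k1 + (t2 - k2) →
      1 ≤ (tr ω' st0 k).1.2 ∧ (tr ω' st0 k).1.2 ≤ Y := by
    intro k hk hk'
    rcases le_or_gt k k1 with h | h
    · rw [← n1' k h]
      have := frow k hk (by omega)
      omega
    · have h1 := n3 (k - k1) (by omega)
      have h2 : k1 + (k - k1) = k := by omega
      rw [h2] at h1
      rw [h1]
      have := gX (k2 + (k - k1)) (by omega)
      omega
  have hcol : X ≤ (tr ω' st0 (k1 + (t2 - k2))).1.1 := by
    rw [n3 _ le_rfl]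
    have h5 : k2 + (t2 - k2) = t2 := by omega
    rw [h5, gy]
    exact hxy
  obtain ⟨m, hm1, hmn, hm, -⟩ := exists_first (f := fun k => (tr ω' st0 k).1.1)
    (n := k1 + (t2 - k2)) (h := X) (by simp [st0]; omega) hcol
    (fun k _ => (col_step isDir_st0 k).1)
  exact ⟨m, hm1, ⟨hm, hrow m hm1 hmn⟩, fun k hk hk' => hrow k hk (by omega)⟩

/-- joining the ray from `(0, 0)` with the ray from `(2 s, 0)` -/
lemma join_hit {ω : V → Cell} {s y Y : ℤ} (hs : 1 ≤ s) (hy : 1 ≤ y) (hyY : y ≤ Y)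
    (hA : Hit ω st0 {v | v.1 < s ∧ 1 ≤ v.2 ∧ v.2 ≤ Y} {(s, y)})
    (hB : Hit ω ((2 * s, 0), (0, 1)) {v | s < v.1 ∧ 1 ≤ v.2 ∧ v.2 ≤ Y} {(s, y)})
    (hC : ω (s, y) = Cell.empty) :
    Hit ω st0 {v | 1 ≤ v.2 ∧ v.2 ≤ Y} {(2 * s, 0)} := by
  obtain ⟨n, hn, hT1, hU1⟩ := hA
  obtain ⟨m, hm, hT2, hU2⟩ := hB
  simp only [Set.mem_ofPred_eq, Set.mem_singleton_iff] at hT1 hT2 hU1 hU2
  set s2 : V × V := ((2 * s, 0), (0, 1)) with hs2
  have hd2 : IsDir s2.2 := by simp [IsDir, hs2]
  have hn1 : n - 1 + 1 = n := by omega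
  have hm1 : m - 1 + 1 = m := by omega
  have e1 : tr ω st0 (n - 1) = ((s - 1, y), (1, 0)) := by
    have h1 : (tr ω st0 (n - 1)).1.1 < s := by
      rcases Nat.eq_zero_or_pos (n - 1) with h | h
      · rw [h]; simp [st0]; omega
      · exact (hU1 (n - 1) h (by omega)).1
    have h2 : (tr ω st0 (n - 1)).1 + (tr ω st0 (n - 1)).2 = (s, y) := by
      rw [← tr_fst_succ, hn1]; exact hT1
    have h3 := isDir_tr (ω := ω) isDir_st0 (n - 1)
    generalize tr ω st0 (n - 1) = z at h1 h2 h3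
    obtain ⟨⟨z1, z2⟩, d⟩ := z
    rcases h3 with h3 | h3 | h3 | h3 <;> simp only at h1 h2 h3 <;> subst h3 <;>
      simp only [Prod.mk_add_mk, Prod.mk.injEq] at h2
    · obtain ⟨h4, h5⟩ := h2
      simp only [Prod.mk.injEq, and_true]
      constructor <;> omega
    · omega
    · omega
    · omega
  have e2 : tr ω s2 (m - 1) = ((s + 1, y), (-1, 0)) := by
    have h1 : s < (tr ω s2 (m - 1)).1.1 := by
      rcases Nat.eq_zero_or_pos (m - 1) with h | h
      · rw [h]; simp [hs2]; omega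
      · exact (hU2 (m - 1) h (by omega)).1
    have h2 : (tr ω s2 (m - 1)).1 + (tr ω s2 (m - 1)).2 = (s, y) := by
      rw [← tr_fst_succ, hm1]; exact hT2
    have h3 := isDir_tr (ω := ω) hd2 (m - 1)
    generalize tr ω s2 (m - 1) = z at h1 h2 h3
    obtain ⟨⟨z1, z2⟩, d⟩ := z
    rcases h3 with h3 | h3 | h3 | h3 <;> simp only at h1 h2 h3 <;> subst h3 <;>
      simp only [Prod.mk_add_mk, Prod.mk.injEq] at h2
    · omega
    · obtain ⟨h4, h5⟩ := h2
      simp only [Prod.mk.injEq, and_true]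
      constructor <;> omega
    · omega
    · omega
  have e3 : tr ω st0 n = rev (tr ω s2 (m - 1)) := by
    rw [← hn1, tr_succ, e1, e2]
    simp [step, rev, hC, turn]
  have e4 : ∀ l ≤ m, (tr ω st0 (n + l)).1 = (tr ω s2 (m - l)).1 := by
    intro l hl
    rw [tr_add, e3]
    rcases lt_or_eq_of_le hl with h | h
    · rw [tr_rev_fst ω s2 (m - 1) l (by omega), hm1]
    · have h3 := tr_rev_fst_last ω s2 (m - 1)
      rw [hm1] at h3
      rw [h, h3]
      simp
  refine ⟨n + m, by omega, ?_, fun k hk hk' => ?_⟩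
  · rw [e4 m le_rfl]; simp [hs2]
  · rcases lt_trichotomy k n with h | h | h
    · exact (hU1 k hk h).2
    · subst h
      simp only [Set.mem_ofPred_eq, hT1]
      exact ⟨hy, hyY⟩
    · have h1 := e4 (k - n) (by omega)
      have h2 : n + (k - n) = k := by omega
      rw [h2] at h1
      simp only [Set.mem_ofPred_eq]
      rw [h1]
      exact (hU2 (m - (k - n)) (by omega) (by omega)).2

/-- last passage at row `Y` -/
lemma last_passage {ω : V → Cell} {Y h : ℤ} (hY : 1 ≤ Y) (hh : 1 ≤ h) (hω : ω ∈ Up (Y + h)) :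
    ∃ x : ℤ, Hit ω ((x, Y), (0, 1)) {v | Y < v.2 ∧ v.2 < Y + h} {v | v.2 = Y + h} ∧
      Hit ω ((x, Y + 1), (0, -1)) {v | 1 ≤ v.2 ∧ v.2 < Y + h} {(0, 0)} := by
  classical
  obtain ⟨n, hn, hT, hU⟩ := hω
  simp only [Set.mem_ofPred_eq] at hT hU
  set r : ℕ → ℤ := fun k => (tr ω st0 k).1.2 with hr
  have r0 : r 0 = 0 := rfl
  obtain ⟨m, hm1, hmn, hm, -⟩ := exists_first (f := r) (n := n) (h := Y) (by rw [r0]; omega)
    (by simp only [hr]; omega) (fun k _ => (row_step isDir_st0 k).1)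
  set k := Nat.findGreatest (fun k => r k = Y) n with hk
  have hkY : r k = Y := Nat.findGreatest_spec (P := fun k => r k = Y) hmn hm
  have hkn : k ≤ n := Nat.findGreatest_le n
  have hkmax : ∀ i, k < i → i ≤ n → r i ≠ Y := fun i hi hi' =>
    Nat.findGreatest_is_greatest (P := fun k => r k = Y) hi hi'
  have hkn' : k < n := by
    rcases lt_or_eq_of_le hkn with h1 | h1
    · exact h1
    · rw [h1] at hkY; simp only [hr] at hkY; omega
  have hk1 : 1 ≤ k := by
    rcases Nat.eq_zero_or_pos k with h1 | h1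
    · rw [h1, r0] at hkY; omega
    · exact h1
  have habove : ∀ i, k < i → i ≤ n → Y < r i := by
    -- downward induction from `n`
    have : ∀ l : ℕ, l ≤ n - k - 1 → Y < r (n - l) := by
      intro l
      induction l with
      | zero => intro _; simp only [Nat.sub_zero, hr]; omega
      | succ l ih =>
        intro hl
        have h1 := ih (by omega)
        have h2 := (row_step (ω := ω) isDir_st0 (n - (l + 1))).1
        have h3 : n - (l + 1) + 1 = n - l := by omega
        rw [h3] at h2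
        have h4 := hkmax (n - (l + 1)) (by omega) (by omega)
        simp only [hr] at h1 h4 ⊢
        omega
    intro i hi hin
    have h1 := this (n - i) (by omega)
    have h2 : n - (n - i) = i := by omega
    rw [h2] at h1
    exact h1
  have hdir : (tr ω st0 k).2 = (0, 1) := by
    have h1 := habove (k + 1) (by omega) (by omega)
    simp only [hr] at h1 hkY
    rw [tr_fst_succ] at h1
    rcases isDir_tr (ω := ω) isDir_st0 k with h2 | h2 | h2 | h2 <;> rw [h2] at h1 <;>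
      simp only [Prod.snd_add] at h1
    · omega
    · omega
    · exact h2
    · omega
  have hstate : tr ω st0 k = (((tr ω st0 k).1.1, Y), (0, 1)) :=
    Prod.ext (Prod.ext rfl hkY) hdir
  refine ⟨(tr ω st0 k).1.1, ?_, ?_⟩
  · rw [← hstate]
    refine ⟨n - k, by omega, ?_, fun i hi hi' => ?_⟩
    · rw [← tr_add]
      have h5 : k + (n - k) = n := by omega
      rw [h5]; exact hT
    · rw [← tr_add]
      exact ⟨habove (k + i) (by omega) (by omega), (hU (k + i) (by omega) (by omega)).2⟩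
  · have h6 : (((tr ω st0 k).1.1, Y + 1), ((0 : ℤ), (-1 : ℤ))) = rev (tr ω st0 k) := by
      conv_rhs => rw [hstate]
      simp [rev]
    rw [h6]
    refine ⟨k + 1, by omega, ?_, fun i hi hi' => ?_⟩
    · rw [tr_rev_fst_last]; rfl
    · rw [tr_rev_fst ω st0 k i (by omega)]
      exact hU (k + 1 - i) (by omega) (by omega)

/-- an arc below row `Y + 1` followed by an upward crossing -/
lemma arc_then_up {ω : V → Cell} {Y h D : ℤ} (hh : 1 ≤ h) (s : V × V) (hs : IsDir s.2)
    (hs1 : s = ((0, Y + 1), (0, -1)))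
    (hA : Hit ω s {v | 1 ≤ v.2 ∧ v.2 ≤ Y} {(D, Y + 1)})
    (hB : Hit ω ((D, Y), (0, 1)) {v | Y < v.2 ∧ v.2 < Y + h} {v | v.2 = Y + h})
    (hY : 1 ≤ Y) :
    Hit ω s {v | 1 ≤ v.2 ∧ v.2 < Y + h} {v | v.2 = Y + h} := by
  obtain ⟨n, hn, hT1, hU1⟩ := hA
  obtain ⟨m, hm, hT2, hU2⟩ := hB
  simp only [Set.mem_ofPred_eq, Set.mem_singleton_iff] at hT1 hT2 hU1 hU2
  have hn1 : n - 1 + 1 = n := by omega
  have hn2 : 2 ≤ n := by
    by_contra hcon
    have : n = 1 := by omega
    subst this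
    rw [tr_fst_succ, hs1] at hT1
    simp at hT1
  have e1 : tr ω s (n - 1) = ((D, Y), (0, 1)) := by
    have h1 : (tr ω s (n - 1)).1.2 ≤ Y := (hU1 (n - 1) (by omega) (by omega)).2
    have h2 : (tr ω s (n - 1)).1 + (tr ω s (n - 1)).2 = (D, Y + 1) := by
      rw [← tr_fst_succ, hn1]; exact hT1
    have h3 := isDir_tr (ω := ω) hs (n - 1)
    generalize tr ω s (n - 1) = z at h1 h2 h3
    obtain ⟨⟨z1, z2⟩, d⟩ := z
    rcases h3 with h3 | h3 | h3 | h3 <;> simp only at h1 h2 h3 <;> subst h3 <;>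
      simp only [Prod.mk_add_mk, Prod.mk.injEq] at h2
    · omega
    · omega
    · obtain ⟨h4, h5⟩ := h2
      simp only [Prod.mk.injEq, and_true]
      constructor <;> omega
    · omega
  have e2 : ∀ l, tr ω s (n - 1 + l) = tr ω ((D, Y), (0, 1)) l := by
    intro l
    rw [tr_add, e1]
  refine ⟨n - 1 + m, by omega, ?_, fun k hk hk' => ?_⟩
  · rw [e2]; exact hT2
  · rcases le_or_gt k (n - 1) with h1 | h1
    · have := hU1 k hk (by omega)
      simp only [Set.mem_ofPred_eq]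
      omega
    · have h2 : k = n - 1 + (k - (n - 1)) := by omega
      rw [h2, e2]
      have := hU2 (k - (n - 1)) (by omega) (by omega)
      simp only [Set.mem_ofPred_eq]
      omega

end Pool.Agent.Helper894_Mirror
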