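import Pool.Agent.Helper894_Mirror.Defs

/-!
# The largest distance reached by the ray
-/

namespace Pool.Agent.Helper894_Mirror

/-- the largest sup-distance from the origin which the ray reaches until time `T` -/
def farthest (ω : V → Cell) (T : ℕ) : ℕ :=
  (Finset.range (T + 1)).sup (fun t => max (pos ω t).1.natAbs (pos ω t).2.natAbs)

end Pool.Agent.Helper894_Mirror
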