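import Pool.Agent.Helper894_Mirror.Bound

/-!
# From the height to the distance
-/

open MeasureTheory ProbabilityTheory

namespace Pool.Agent.Helper894_Mirror

/-- the ray from `(x, 0)` going north reaches column `n` while staying in the rows between `1`
and `H - 1` -/
def EE (n H x : ℤ) : Set (V → Cell) :=
  {ω | ∃ t, n ≤ (tr ω ((x, 0), (0, 1)) t).1.1 ∧ ∀ k, 1 ≤ k → k ≤ t →
    1 ≤ (tr ω ((x, 0), (0, 1)) k).1.2 ∧ (tr ω ((x, 0), (0, 1)) k).1.2 < H}

lemma measurableSet_EE (n H x : ℤ) : MeasurableSet (EE n H x) := by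
  have : EE n H x = ⋃ t : ℕ, ({ω | n ≤ (tr ω ((x, 0), (0, 1)) t).1.1} ∩
      ⋂ k : ℕ, {ω | 1 ≤ k → k ≤ t → 1 ≤ (tr ω ((x, 0), (0, 1)) k).1.2 ∧
        (tr ω ((x, 0), (0, 1)) k).1.2 < H}) := by
    ext ω
    simp [EE]
  rw [this]
  refine MeasurableSet.iUnion fun t => (measurableSet_tr _ t (fun z => n ≤ z.1.1)).inter
    (MeasurableSet.iInter fun k => ?_)
  exact measurableSet_tr _ k (fun z => 1 ≤ k → k ≤ t → 1 ≤ z.1.2 ∧ z.1.2 < H)

/-- from `(0, y)` going east, the ray reaches column `n` before it comes back to column `0` -/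
def GG (n y : ℤ) : Set (V → Cell) :=
  {ω | Hit ω ((0, y), (1, 0)) {v | 0 < v.1 ∧ v.1 < n} {v | v.1 = n}}

/-- from `(1, y)` going west, the ray reaches `(x, 0)` while staying in the rows between `1` and
`H - 1` -/
def QQ (H y x : ℤ) : Set (V → Cell) :=
  {ω | Hit ω ((1, y), (-1, 0)) {v | 1 ≤ v.2 ∧ v.2 < H} {(x, 0)}}

lemma measurableSet_GG (n y : ℤ) : MeasurableSet (GG n y) := measurableSet_hit _ _ _
lemma measurableSet_QQ (H y x : ℤ) : MeasurableSet (QQ H y x) := measurableSet_hit _ _ _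

lemma real_GG (p : unitInterval) (n y : ℤ) : (mirrorLaw p).real (GG n y) = cc p n := by
  have h := (Sym.diag (0, y)).real_hit p st0 {v | 0 < v.1 ∧ v.1 < n} {v | v.1 = n}
  have e1 : ((Sym.diag (0, y)).e st0.1, (Sym.diag (0, y)).L st0.2) =
      (((0, y), (1, 0)) : V × V) := by
    simp [Sym.diag, st0]
  have e2 : (Sym.diag (0, y)).e ⁻¹' {v : V | 0 < v.1 ∧ v.1 < n} =
      {v | 1 ≤ v.2 ∧ v.2 < n} := by
    ext ⟨a, b⟩
    simp [Sym.diag]
    intro _
    constructor <;> intro h <;> omega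
  have e3 : (Sym.diag (0, y)).e ⁻¹' {v : V | v.1 = n} = {v | v.2 = n} := by
    ext ⟨a, b⟩
    simp [Sym.diag]
  rw [e1, e2, e3] at h
  exact h

/-- last exit from column `0` -/
lemma last_exit {ω : V → Cell} {n H x : ℤ} (hx : x < 0) (hn : 1 ≤ n) (hω : ω ∈ EE n H x) :
    ∃ y ∈ Finset.Ioo 0 H, ω ∈ QQ H y x ∩ GG n y := by
  classical
  obtain ⟨t, ht, hU⟩ := hω
  set s : V × V := ((x, 0), (0, 1)) with hs
  have hd : IsDir s.2 := by simp [IsDir, hs]
  set r : ℕ → ℤ := fun k => (tr ω s k).1.1 with hr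
  have r0 : r 0 = x := rfl
  obtain ⟨M, hM1, hMt, hM, hMlt⟩ := exists_first (f := r) (n := t) (h := n) (by rw [r0]; omega)
    ht (fun k _ => (col_step hd k).1)
  obtain ⟨m, hm1, hmM, hm, -⟩ := exists_first (f := r) (n := M) (h := 0) (by rw [r0]; omega)
    (by omega) (fun k _ => (col_step hd k).1)
  set k := Nat.findGreatest (fun k => r k = 0) M with hk
  have hk0 : r k = 0 := Nat.findGreatest_spec (P := fun k => r k = 0) hmM hm
  have hkM : k ≤ M := Nat.findGreatest_le M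
  have hkmax : ∀ i, k < i → i ≤ M → r i ≠ 0 := fun i hi hi' =>
    Nat.findGreatest_is_greatest (P := fun k => r k = 0) hi hi'
  have hkM' : k < M := by
    rcases lt_or_eq_of_le hkM with h1 | h1
    · exact h1
    · rw [h1] at hk0; omega
  have hk1 : 1 ≤ k := by
    rcases Nat.eq_zero_or_pos k with h1 | h1
    · rw [h1, r0] at hk0; omega
    · exact h1
  have habove : ∀ i, k < i → i ≤ M → 0 < r i := by
    have : ∀ l : ℕ, l ≤ M - k - 1 → 0 < r (M - l) := by
      intro l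
      induction l with
      | zero => intro _; rw [Nat.sub_zero, hM]; omega
      | succ l ih =>
        intro hl
        have h1 := ih (by omega)
        have h2 := (col_step (ω := ω) hd (M - (l + 1))).1
        have h3 : M - (l + 1) + 1 = M - l := by omega
        rw [h3] at h2
        have h4 := hkmax (M - (l + 1)) (by omega) (by omega)
        simp only [hr] at h1 h4 ⊢
        omega
    intro i hi hin
    have h1 := this (M - i) (by omega)
    have h2 : M - (M - i) = i := by omega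
    rw [h2] at h1
    exact h1
  have hdir : (tr ω s k).2 = (1, 0) := by
    have h1 := habove (k + 1) (by omega) (by omega)
    simp only [hr] at h1 hk0
    rw [tr_fst_succ] at h1
    rcases isDir_tr (ω := ω) hd k with h2 | h2 | h2 | h2 <;> rw [h2] at h1 <;>
      simp only [Prod.fst_add] at h1
    · exact h2
    · omega
    · omega
    · omega
  have hstate : tr ω s k = ((0, (tr ω s k).1.2), (1, 0)) :=
    Prod.ext (Prod.ext hk0 rfl) hdir
  have hrow := hU k hk1 (by omega)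
  refine ⟨(tr ω s k).1.2, Finset.mem_Ioo.mpr ⟨by omega, hrow.2⟩, ?_, ?_⟩
  · have h6 : (((1 : ℤ), (tr ω s k).1.2), ((-1 : ℤ), (0 : ℤ))) = rev (tr ω s k) := by
      conv_rhs => rw [hstate]
      simp [rev]
    simp only [QQ, Set.mem_ofPred_eq]
    rw [h6]
    refine ⟨k + 1, by omega, ?_, fun i hi hi' => ?_⟩
    · rw [tr_rev_fst_last]; rfl
    · rw [tr_rev_fst ω s k i (by omega)]
      exact hU (k + 1 - i) (by omega) (by omega)
  · simp only [GG, Set.mem_ofPred_eq]
    rw [← hstate]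
    refine ⟨M - k, by omega, ?_, fun i hi hi' => ?_⟩
    · rw [← tr_add]
      have h5 : k + (M - k) = M := by omega
      rw [h5]; exact hM
    · rw [← tr_add]
      exact ⟨habove (k + i) (by omega) (by omega), hMlt (k + i) (by omega)⟩

lemma real_EE_ge (p : unitInterval) {L H m x : ℤ} (hx : -m ≤ x) :
    (mirrorLaw p).real (EE L H 0) ≤ (mirrorLaw p).real (EE (L - m) H x) := by
  rw [← (Sym.trans (x, 0)).real_preimage p (measurableSet_EE (L - m) H x)]
  refine measureReal_mono ?_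
  rintro ω ⟨t, ht, hU⟩
  have h1 : ∀ k, tr ((Sym.trans (x, 0)).act ω) ((x, 0), (0, 1)) k =
      ((tr ω ((0, 0), (0, 1)) k).1 + (x, 0), (tr ω ((0, 0), (0, 1)) k).2) := by
    intro k
    have := (Sym.trans (x, 0)).tr_act ω ((0, 0), (0, 1)) k
    simpa [Sym.trans] using this
  refine ⟨t, ?_, fun k hk hk' => ?_⟩
  · rw [h1]
    simp only [Prod.fst_add]
    omega
  · rw [h1]
    simp only [Prod.snd_add, add_zero]
    exact hU k hk hk'

lemma east_le (p : unitInterval) {L H : ℤ} {m : ℕ} (hH : 1 ≤ H) (hL : (m : ℤ) < L) :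
    (m : ℝ) * (mirrorLaw p).real (EE L H 0) ≤ (H - 1) * cc p (L - m) := by
  have h1 : ∀ x ∈ Finset.Ico (-(m : ℤ)) 0, (mirrorLaw p).real (EE L H 0) ≤
      ∑ y ∈ Finset.Ioo 0 H, (mirrorLaw p).real (QQ H y x ∩ GG (L - m) y) := by
    intro x hx
    rw [Finset.mem_Ico] at hx
    refine (real_EE_ge p (m := m) hx.1).trans ?_
    refine le_trans (measureReal_mono (s₂ := ⋃ y ∈ Finset.Ioo 0 H,
      (QQ H y x ∩ GG (L - m) y)) ?_ (measure_ne_top _ _)) (measureReal_biUnion_finset_le _ _)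
    intro ω hω
    obtain ⟨y, hy, hy'⟩ := last_exit hx.2 (by omega) hω
    simp only [Set.mem_iUnion]
    exact ⟨y, hy, hy'⟩
  have h2 := Finset.sum_le_sum h1
  rw [Finset.sum_const, Int.card_Ico, nsmul_eq_mul, Finset.sum_comm] at h2
  have h3 : ∀ y ∈ Finset.Ioo 0 H, ∑ x ∈ Finset.Ico (-(m : ℤ)) 0,
      (mirrorLaw p).real (QQ H y x ∩ GG (L - m) y) ≤ cc p (L - m) := by
    intro y _
    rw [← real_GG p (L - m) y, ← measureReal_biUnion_finset]
    · refine measureReal_mono ?_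
      intro ω hω
      simp only [Set.mem_iUnion] at hω
      obtain ⟨x, -, -, h4⟩ := hω
      exact h4
    · intro x _ x' _ hxx
      rw [Function.onFun, Set.disjoint_left]
      rintro ω ⟨h1, -⟩ ⟨h2, -⟩
      obtain ⟨v, h3, h4⟩ := Hit.inter h1 h2 (by rintro v rfl; simp) (by rintro v rfl; simp)
      rw [Set.mem_singleton_iff] at h3 h4
      rw [h3] at h4
      exact hxx (Prod.ext_iff.mp h4).1
    · exact fun x _ => (measurableSet_QQ _ _ _).inter (measurableSet_GG _ _)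
  have h4 := Finset.sum_le_sum h3
  rw [Finset.sum_const, Int.card_Ioo, nsmul_eq_mul] at h4
  have e1 : ((0 - -(m : ℤ)).toNat : ℝ) = m := by
    have : (0 - -(m : ℤ)).toNat = m := by omega
    rw [this]
  have e2 : ((H - 0 - 1).toNat : ℝ) = H - 1 := by
    have : (((H - 0 - 1).toNat : ℕ) : ℤ) = H - 1 := by
      rw [Int.toNat_of_nonneg (by omega)]; ring
    exact_mod_cast this
  rw [e1] at h2
  rw [e2] at h4
  exact h2.trans h4

/-- the ray reaches distance `n` before it comes back to row `0` -/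
def Far (n : ℕ) : Set (V → Cell) :=
  {ω | ∃ t, (n : ℤ) ≤ max |(pos ω t).1| |(pos ω t).2| ∧ ∀ k, 1 ≤ k → k ≤ t → 0 < (pos ω k).2}

lemma far_subset {n : ℕ} (hn : 1 ≤ n) :
    Far n ⊆ Up n ∪ (EE n n 0 ∪ (Sym.reflX 0).act ⁻¹' (EE n n 0)) := by
  rintro ω ⟨t, ht, hU⟩
  have hpos : ∀ k, pos ω k = (tr ω st0 k).1 := fun k => rfl
  have hn' : (1 : ℤ) ≤ n := by exact_mod_cast hn
  by_cases h1 : ∃ k ≤ t, (n : ℤ) ≤ (pos ω k).2
  · left
    obtain ⟨k, hk, hk'⟩ := h1
    obtain ⟨m, hm1, hmk, hm, hlt⟩ := exists_first (f := fun k => (tr ω st0 k).1.2) (n := k)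
      (h := n) (by simp [st0]; omega) hk' (fun k _ => (row_step isDir_st0 k).1)
    exact ⟨m, hm1, hm, fun i hi hi' => ⟨hU i hi (by omega), hlt i hi'⟩⟩
  · push Not at h1
    right
    have hrow : ∀ k, 1 ≤ k → k ≤ t → 1 ≤ (tr ω ((0, 0), (0, 1)) k).1.2 ∧
        (tr ω ((0, 0), (0, 1)) k).1.2 < n := fun k hk hk' => ⟨hU k hk hk', h1 k hk'⟩
    have h2 : (n : ℤ) ≤ |(pos ω t).1| := by
      rcases le_max_iff.mp ht with h3 | h3
      · exact h3
      · exfalso
        rcases Nat.eq_zero_or_pos t with h4 | h4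
        · subst h4
          simp [pos] at h3
          omega
        · rw [abs_of_pos (hU t h4 le_rfl)] at h3
          exact absurd h3 (not_le.mpr (h1 t le_rfl))
    rcases le_abs.mp h2 with h3 | h3
    · left
      exact ⟨t, h3, hrow⟩
    · right
      have h4 : ∀ k, tr ((Sym.reflX 0).act ω) ((0, 0), (0, 1)) k =
          ((-(tr ω ((0, 0), (0, 1)) k).1.1, (tr ω ((0, 0), (0, 1)) k).1.2),
            (-(tr ω ((0, 0), (0, 1)) k).2.1, (tr ω ((0, 0), (0, 1)) k).2.2)) := by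
        intro k
        have := (Sym.reflX 0).tr_act ω ((0, 0), (0, 1)) k
        simpa [Sym.reflX, Prod.map] using this
      refine ⟨t, ?_, fun k hk hk' => ?_⟩
      · rw [h4]; exact h3
      · rw [h4]; exact hrow k hk hk'

theorem far_bound {p : unitInterval} (h0 : (0 : ℝ) < p) (h1 : (p : ℝ) < 1) {n : ℕ} (hn : 1 ≤ n) :
    (mirrorLaw p).real (Far n) ≤ 30 * ((p : ℝ) ^ 2 * (1 - p) ^ 3 * n) ^ (-(1 / 15) : ℝ) := by
  have hp : 0 < 1 - (p : ℝ) := by linarith
  have hn0 : (0 : ℝ) < n := by exact_mod_cast hn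
  set A : ℝ := (p : ℝ) ^ 2 * (1 - p) ^ 3 with hA
  have hA0 : 0 < A := by positivity
  have hKK : KK p * ((p : ℝ) * (1 - p)) ≤ 4 := by
    have h2 : (p : ℝ) ≠ 0 := h0.ne'
    rw [KK_eq]
    have e : ((1 - (p : ℝ))⁻¹ + ((p : ℝ) / 2)⁻¹ + ((p : ℝ) / 2)⁻¹) * ((p : ℝ) * (1 - p)) =
        4 - 3 * p := by
      have h3 : (1 - (p : ℝ)) ≠ 0 := hp.ne'
      field_simp
      ring
    rw [e]
    linarith
  have hc : ∀ k : ℕ, 1 ≤ k → (n : ℝ) ≤ 2 * k → (5 * cc p k) ^ 15 ≤ 30 ^ 15 / (A * n) := by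
    intro k hk hnk
    have h2 := cc_bound h0 h1 hk
    have h3 := cc_nonneg p k
    have h4 : (0 : ℝ) < k := by exact_mod_cast hk
    have h5 : (KK p * ((p : ℝ) * (1 - p))) ^ 2 ≤ 4 ^ 2 := by
      have := KK_ge h0 h1
      exact pow_le_pow_left₀ (by positivity) hKK 2
    have h6 : (k : ℝ) * A * cc p k ^ 15 ≤ 6 * 108 ^ 2 * 288 ^ 2 * 4 ^ 2 := by
      have e1 : (k : ℝ) * A * cc p k ^ 15 =
          ((k : ℝ) * (1 - p) * cc p k ^ 15) * ((p : ℝ) * (1 - p)) ^ 2 := by
        rw [hA]; ring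
      have e2 : (6 * 108 ^ 2 * 288 ^ 2 * KK p ^ 2) * ((p : ℝ) * (1 - p)) ^ 2 =
          6 * 108 ^ 2 * 288 ^ 2 * (KK p * ((p : ℝ) * (1 - p))) ^ 2 := by ring
      rw [e1]
      refine (mul_le_mul_of_nonneg_right h2 (by positivity)).trans ?_
      rw [e2]
      linarith
    rw [le_div_iff₀ (by positivity)]
    have h7 : cc p k ^ 15 * (A * n) ≤ cc p k ^ 15 * (A * (2 * k)) := by
      gcongr
    have h8 : (5 * cc p k) ^ 15 * (A * n) = 5 ^ 15 * (cc p k ^ 15 * (A * n)) := by ring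
    rw [h8]
    have h9 : cc p k ^ 15 * (A * (2 * k)) = 2 * ((k : ℝ) * A * cc p k ^ 15) := by ring
    norm_num at h6 ⊢
    linarith
  -- reduction to the bound for the fifteenth power
  suffices h : ∃ k : ℕ, 1 ≤ k ∧ (n : ℝ) ≤ 2 * k ∧ (mirrorLaw p).real (Far n) ≤ 5 * cc p k by
    obtain ⟨k, hk, hnk, h⟩ := h
    refine h.trans ?_
    have h2 := hc k hk hnk
    have h3 : 0 ≤ 5 * cc p k := by have := cc_nonneg p k; positivity
    have h4 : 5 * cc p k = ((5 * cc p k) ^ 15) ^ ((1 / 15 : ℝ)) := by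
      rw [← Real.rpow_natCast, ← Real.rpow_mul h3]
      norm_num
    rw [h4]
    refine (Real.rpow_le_rpow (by positivity) h2 (by norm_num)).trans (le_of_eq ?_)
    rw [Real.div_rpow (by positivity) (by positivity), Real.rpow_neg (by positivity)]
    have h5 : ((30 : ℝ) ^ 15) ^ ((1 / 15 : ℝ)) = 30 := by
      rw [← Real.rpow_natCast, ← Real.rpow_mul (by norm_num)]
      norm_num
    rw [h5]
    rfl
  rcases Nat.lt_or_ge 1 n with h2 | h2
  · refine ⟨n - n / 2, by omega, ?_, ?_⟩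
    · have : n ≤ 2 * (n - n / 2) := by omega
      exact_mod_cast this
    · have h3 := measureReal_mono (μ := mirrorLaw p) (far_subset hn) (measure_ne_top _ _)
      have h4 := measureReal_union_le (μ := mirrorLaw p) (Up n)
        (EE n n 0 ∪ (Sym.reflX 0).act ⁻¹' (EE n n 0))
      have h5 := measureReal_union_le (μ := mirrorLaw p) (EE n n 0)
        ((Sym.reflX 0).act ⁻¹' (EE n n 0))
      rw [(Sym.reflX 0).real_preimage p (measurableSet_EE _ _ _)] at h5
      have h6 := east_le p (L := n) (H := n) (m := n / 2) (by exact_mod_cast hn)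
        (by exact_mod_cast (by omega : n / 2 < n))
      have h7 : ((n : ℤ) - ((n / 2 : ℕ) : ℤ)) = ((n - n / 2 : ℕ) : ℤ) := by omega
      rw [h7] at h6
      have h8 : cc p n ≤ cc p ((n - n / 2 : ℕ) : ℤ) := by
        refine cc_anti p ?_ ?_
        · exact_mod_cast (by omega : 1 ≤ n - n / 2)
        · exact_mod_cast (by omega : n - n / 2 ≤ n)
      have h9 := cc_nonneg p ((n - n / 2 : ℕ) : ℤ)
      have h10 : (mirrorLaw p).real (EE n n 0) ≤ 2 * cc p ((n - n / 2 : ℕ) : ℤ) := by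
        have h11 : (((n : ℤ) : ℝ) - 1) ≤ 2 * ((n / 2 : ℕ) : ℝ) := by
          have h : n ≤ 2 * (n / 2) + 1 := by omega
          have h' : (n : ℝ) ≤ 2 * ((n / 2 : ℕ) : ℝ) + 1 := by exact_mod_cast h
          rw [Int.cast_natCast]
          linarith
        have h12 : (0 : ℝ) < ((n / 2 : ℕ) : ℝ) := by exact_mod_cast (by omega : 0 < n / 2)
        have h13 : (((n : ℤ) : ℝ) - 1) * cc p ((n - n / 2 : ℕ) : ℤ) ≤
            2 * ((n / 2 : ℕ) : ℝ) * cc p ((n - n / 2 : ℕ) : ℤ) :=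
          mul_le_mul_of_nonneg_right h11 h9
        have h14 : ((n / 2 : ℕ) : ℝ) * (mirrorLaw p).real (EE n n 0) ≤
            ((n / 2 : ℕ) : ℝ) * (2 * cc p ((n - n / 2 : ℕ) : ℤ)) := by linarith
        exact le_of_mul_le_mul_left h14 h12
      have h15 : (mirrorLaw p).real (Up n) = cc p n := rfl
      linarith
  · have h3 : n = 1 := by omega
    subst h3
    refine ⟨1, le_rfl, by norm_num, ?_⟩
    have h4 : (1 : ℝ) ≤ 5 * cc p ((1 : ℕ) : ℤ) := by
      have h5 : Up ((1 : ℕ) : ℤ) = Set.univ := by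
        rw [Set.eq_univ_iff_forall]
        intro ω
        refine ⟨1, le_rfl, ?_, fun k hk hk' => by omega⟩
        simp [tr_fst_succ, st0]
      have h6 : cc p ((1 : ℕ) : ℤ) = 1 := by
        rw [cc, h5]; simp
      rw [h6]; norm_num
    exact measureReal_le_one.trans h4

end Pool.Agent.Helper894_Mirror
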