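import Pool.Agent.Helper894_Mirror.Basic

/-!
# Measurability, independence, changing one vertex
-/

open MeasureTheory ProbabilityTheory

namespace Pool.Agent.Helper894_Mirror

instance (p : unitInterval) : IsProbabilityMeasure (mirrorLaw p) := by
  unfold mirrorLaw; infer_instance

lemma measurableSet_tr_eq (s : V × V) (n : ℕ) (z : V × V) :
    MeasurableSet {ω : V → Cell | tr ω s n = z} := by
  induction n generalizing z with
  | zero => simp only [tr_zero]; exact MeasurableSet.const _
  | succ n ih =>
    have : {ω : V → Cell | tr ω s (n + 1) = z} =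
        ⋃ y : V × V, {ω | tr ω s n = y} ∩ {ω | step ω y = z} := by
      ext ω
      simp [tr_succ]
    rw [this]
    refine MeasurableSet.iUnion fun y => (ih y).inter ?_
    have h2 : {ω : V → Cell | step ω y = z} =
        (fun ω : V → Cell => ω (y.1 + y.2)) ⁻¹' {c | (y.1 + y.2, turn c y.2) = z} := rfl
    rw [h2]
    exact measurable_pi_apply _ (MeasurableSpace.measurableSet_top)

lemma measurableSet_tr (s : V × V) (n : ℕ) (P : V × V → Prop) :
    MeasurableSet {ω : V → Cell | P (tr ω s n)} := by
  have : {ω : V → Cell | P (tr ω s n)} = ⋃ z : {z // P z}, {ω | tr ω s n = z} := by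
    ext ω
    simp
  rw [this]
  exact MeasurableSet.iUnion fun z => measurableSet_tr_eq s n z

lemma measurableSet_hit (s : V × V) (U T : Set V) : MeasurableSet {ω | Hit ω s U T} := by
  have : {ω | Hit ω s U T} = ⋃ n : ℕ, {ω | 1 ≤ n} ∩ ({ω | (tr ω s n).1 ∈ T} ∩
      ⋂ k : ℕ, {ω | 1 ≤ k → k < n → (tr ω s k).1 ∈ U}) := by
    ext ω
    simp [Hit]
  rw [this]
  refine MeasurableSet.iUnion fun n => (MeasurableSet.const _).inter
    ((measurableSet_tr s n (fun z => z.1 ∈ T)).inter (MeasurableSet.iInter fun k => ?_))
  exact measurableSet_tr s k (fun z => 1 ≤ k → k < n → z.1 ∈ U)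

/-! ### Independence -/

/-- extension of a configuration on `S` by empty vertices -/
noncomputable def ext (S : Set V) (x : S → Cell) : V → Cell := by
  classical exact fun v => if h : v ∈ S then x ⟨v, h⟩ else Cell.empty

lemma measurable_ext (S : Set V) : Measurable (ext S) := by
  classical
  refine measurable_pi_lambda _ fun v => ?_
  by_cases h : v ∈ S
  · simp only [ext, h, dif_pos]; exact measurable_pi_apply _
  · simp only [ext, h, dif_neg, not_false_iff]; exact measurable_const

lemma DepOn.eq_preimage {A : Set (V → Cell)} {S : Set V} (h : DepOn A S) :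
    A = (fun (ω : V → Cell) (v : S) => ω v) ⁻¹' (ext S ⁻¹' A) := by
  classical
  ext ω
  have hext : ∀ v ∈ S, ω v = ext S (fun v : S => ω v) v := fun v hv => by simp [ext, hv]
  constructor
  · exact fun hA => h ω _ hext hA
  · exact fun hA => h _ ω (fun v hv => (hext v hv).symm) hA

lemma measure_inter {p : unitInterval} {A B : Set (V → Cell)} {S T : Set V}
    (hA : MeasurableSet A) (hB : MeasurableSet B) (hAS : DepOn A S) (hBT : DepOn B T)
    (hST : Disjoint S T) :
    mirrorLaw p (A ∩ B) = mirrorLaw p A * mirrorLaw p B := by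
  have hind : iIndepFun (fun (v : V) (ω : V → Cell) => ω v) (mirrorLaw p) :=
    iIndepFun_infinitePi (P := fun _ : V => cellLaw p) (X := fun _ c => c)
      (fun _ => measurable_id)
  rw [iIndepFun_iff_iIndep] at hind
  have h2 := indep_iSup_of_disjoint (m := fun v : V =>
      MeasurableSpace.comap (fun ω : V → Cell => ω v) (inferInstance : MeasurableSpace Cell))
    (fun v => (measurable_pi_apply v).comap_le) hind hST
  rw [Indep_iff] at h2
  have key : ∀ (A : Set (V → Cell)) (S : Set V), MeasurableSet A → DepOn A S →
      MeasurableSet[⨆ v ∈ S, MeasurableSpace.comap (fun ω : V → Cell => ω v)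
        (inferInstance : MeasurableSpace Cell)] A := by
    intro A S hA hAS
    rw [hAS.eq_preimage]
    have hm : Measurable[⨆ v ∈ S, MeasurableSpace.comap (fun ω : V → Cell => ω v)
        (inferInstance : MeasurableSpace Cell)] (fun (ω : V → Cell) (v : S) => ω v) := by
      refine @measurable_pi_lambda _ _ _ (_) _ _ fun v => ?_
      rw [measurable_iff_comap_le]
      exact le_iSup₂_of_le (v : V) v.2 le_rfl
    exact hm (measurable_ext S hA)
  exact h2 A B (key A S hA hAS) (key B T hB hBT)

lemma real_inter {p : unitInterval} {A B : Set (V → Cell)} {S T : Set V}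
    (hA : MeasurableSet A) (hB : MeasurableSet B) (hAS : DepOn A S) (hBT : DepOn B T)
    (hST : Disjoint S T) :
    (mirrorLaw p).real (A ∩ B) = (mirrorLaw p).real A * (mirrorLaw p).real B := by
  simp only [measureReal_def, measure_inter hA hB hAS hBT hST, ENNReal.toReal_mul]

lemma measure_cell {p : unitInterval} (v : V) (c : Cell) :
    (mirrorLaw p).real {ω | ω v = c} = (cellLaw p).real {c} := by
  have : (mirrorLaw p).map (fun ω => ω v) = cellLaw p := Measure.infinitePi_map_eval _ v
  rw [← this, measureReal_def, measureReal_def, Measure.map_apply (measurable_pi_apply v)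
    MeasurableSpace.measurableSet_top]
  rfl

/-- probability of a state, as a real number -/
noncomputable def wt (p : unitInterval) : Cell → ℝ
  | .empty => 1 - p
  | .ne => p / 2
  | .nw => p / 2

lemma cellLaw_real (p : unitInterval) (c : Cell) : (cellLaw p).real {c} = wt p c := by
  have h0 : (0 : ℝ) ≤ p := p.2.1
  have h1 : (p : ℝ) ≤ 1 := p.2.2
  cases c <;>
  simp [cellLaw, measureReal_def, wt, ENNReal.toReal_ofReal, h1] <;>
  linarith

lemma real_update_le {p : unitInterval} (v : V) (c : Cell) {E : Set (V → Cell)}
    (hE : MeasurableSet E) :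
    (mirrorLaw p).real {ω | Function.update ω v c ∈ E} * wt p c ≤ (mirrorLaw p).real E := by
  classical
  have hm : Measurable (fun ω : V → Cell => Function.update ω v c) := by
    refine measurable_pi_lambda _ fun u => ?_
    by_cases h : u = v
    · subst h; simp
    · simp only [Function.update_of_ne h]; exact measurable_pi_apply u
  have hA : MeasurableSet {ω : V → Cell | Function.update ω v c ∈ E} := hm hE
  have hB : MeasurableSet {ω : V → Cell | ω v = c} := by
    have h0 : MeasurableSet ((fun ω : V → Cell => ω v) ⁻¹' {c}) :=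
      (measurable_pi_apply v) (MeasurableSet.of_discrete)
    exact h0
  have h1 : DepOn {ω : V → Cell | Function.update ω v c ∈ E} {v}ᶜ := by
    intro ω ω' h hω
    have : Function.update ω v c = Function.update ω' v c := by
      ext u
      by_cases hu : u = v
      · subst hu; simp
      · simp only [Function.update_of_ne hu]; exact h u hu
    simpa [this] using hω
  have h2 : DepOn {ω : V → Cell | ω v = c} {v} := by
    intro ω ω' h hω
    simp only [Set.mem_ofPred_eq] at hω ⊢
    rw [← h v rfl]; exact hω
  rw [← cellLaw_real, ← measure_cell v c, ← real_inter hA hB h1 h2 disjoint_compl_left]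
  refine measureReal_mono ?_
  rintro ω ⟨h3, h4⟩
  simp only [Set.mem_ofPred_eq] at h3 h4
  rw [← h4] at h3
  simpa using h3

/-! ### Symmetry of the hitting probabilities -/

lemma Sym.real_preimage (g : Sym) (p : unitInterval) {A : Set (V → Cell)} (hA : MeasurableSet A) :
    (mirrorLaw p).real (g.act ⁻¹' A) = (mirrorLaw p).real A := by
  rw [measureReal_def, (g.measurePreserving p).measure_preimage hA.nullMeasurableSet,
    measureReal_def]

lemma Sym.real_hit (g : Sym) (p : unitInterval) (s : V × V) (U T : Set V) :
    (mirrorLaw p).real {ω | Hit ω (g.e s.1, g.L s.2) U T} =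
      (mirrorLaw p).real {ω | Hit ω s (g.e ⁻¹' U) (g.e ⁻¹' T)} := by
  rw [← g.real_preimage p (measurableSet_hit _ U T)]
  congr 1
  ext ω
  exact g.hit_act ω s U T

end Pool.Agent.Helper894_Mirror
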