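import Pool.Agent.Helper894_Mirror.Meas
import Pool.Agent.Helper894_Mirror.Det

/-!
# The probabilistic estimates
-/

open MeasureTheory ProbabilityTheory

namespace Pool.Agent.Helper894_Mirror

/-- probability of reaching row `h` before coming back to row `0` -/
noncomputable def cc (p : unitInterval) (h : ℤ) : ℝ := (mirrorLaw p).real (Up h)

/-- probability of `Tube` -/
noncomputable def qq (p : unitInterval) (X y : ℤ) : ℝ := (mirrorLaw p).real (Tube X y)

/-- probability of `Side` -/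
noncomputable def al (p : unitInterval) (X Y : ℤ) : ℝ := (mirrorLaw p).real (Side X Y)

lemma measurableSet_up (h : ℤ) : MeasurableSet (Up h) := measurableSet_hit _ _ _
lemma measurableSet_tube (X y : ℤ) : MeasurableSet (Tube X y) := measurableSet_hit _ _ _
lemma measurableSet_tube' (X x0 y : ℤ) : MeasurableSet (Tube' X x0 y) := measurableSet_hit _ _ _
lemma measurableSet_side (X Y : ℤ) : MeasurableSet (Side X Y) := measurableSet_hit _ _ _

lemma cc_nonneg (p : unitInterval) (h : ℤ) : 0 ≤ cc p h := measureReal_nonneg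
lemma cc_le_one (p : unitInterval) (h : ℤ) : cc p h ≤ 1 := measureReal_le_one
lemma qq_nonneg (p : unitInterval) (X y : ℤ) : 0 ≤ qq p X y := measureReal_nonneg
lemma qq_le_one (p : unitInterval) (X y : ℤ) : qq p X y ≤ 1 := measureReal_le_one
lemma al_nonneg (p : unitInterval) (X Y : ℤ) : 0 ≤ al p X Y := measureReal_nonneg

lemma cc_anti (p : unitInterval) {h h' : ℤ} (h1 : 1 ≤ h) (hh : h ≤ h') : cc p h' ≤ cc p h :=
  measureReal_mono (up_anti h1 hh)

lemma qq_anti (p : unitInterval) {X y y' : ℤ} (h1 : 1 ≤ y) (hh : y ≤ y') : qq p X y' ≤ qq p X y :=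
  measureReal_mono (tube_anti h1 hh)

lemma tube'_anti {X x0 y y' : ℤ} (h1 : 1 ≤ y) (hh : y ≤ y') : Tube' X x0 y' ⊆ Tube' X x0 y := by
  rintro ω ⟨n, hn, hT, hU⟩
  have hd : IsDir (((x0, X), (1, 0)) : V × V).2 := by simp [IsDir]
  obtain ⟨m, hm1, hmn, hm, hlt⟩ := exists_first
    (f := fun k => (tr ω ((x0, X), (1, 0)) k).1.1) (n := n) (h := x0 + y)
    (by simp; omega) (by simp only [Set.mem_ofPred_eq] at hT; omega)
    (fun k _ => (col_step hd k).1)
  have hX : |(tr ω ((x0, X), (1, 0)) m).1.2 - X| < X := by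
    rcases lt_or_eq_of_le hmn with h2 | h2
    · exact (hU m hm1 h2).1
    · rw [h2]; exact hT.1
  exact ⟨m, hm1, ⟨hX, hm⟩, fun k hk hkm =>
    ⟨(hU k hk (by omega)).1, (hU k hk (by omega)).2.1, hlt k hkm⟩⟩

lemma real_tube' (p : unitInterval) (X x0 y : ℤ) :
    (mirrorLaw p).real (Tube' X x0 y) = qq p X y := by
  have h := (Sym.diag (x0, X)).real_hit p st0 {v | |v.2 - X| < X ∧ x0 + 1 ≤ v.1 ∧ v.1 < x0 + y}
    {v | |v.2 - X| < X ∧ v.1 = x0 + y}
  have e1 : ((Sym.diag (x0, X)).e st0.1, (Sym.diag (x0, X)).L st0.2) =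
      (((x0, X), (1, 0)) : V × V) := by
    simp [Sym.diag, st0]
  have e2 : (Sym.diag (x0, X)).e ⁻¹' {v | |v.2 - X| < X ∧ x0 + 1 ≤ v.1 ∧ v.1 < x0 + y} =
      {v | |v.1| < X ∧ 1 ≤ v.2 ∧ v.2 < y} := by
    ext ⟨a, b⟩
    simp [Sym.diag]
    intro _
    constructor <;> rintro ⟨h2, h3⟩ <;> constructor <;> omega
  have e3 : (Sym.diag (x0, X)).e ⁻¹' {v | |v.2 - X| < X ∧ v.1 = x0 + y} =
      {v | |v.1| < X ∧ v.2 = y} := by
    ext ⟨a, b⟩
    simp [Sym.diag]
    intro _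
    constructor <;> intro h <;> omega
  rw [e1, e2, e3] at h
  exact h

/-- sum of the inverse probabilities of the three states -/
noncomputable def KK (p : unitInterval) : ℝ := ∑ c : Cell, (wt p c)⁻¹

lemma wt_pos {p : unitInterval} (h0 : (0 : ℝ) < p) (h1 : (p : ℝ) < 1) (c : Cell) :
    0 < wt p c := by
  cases c <;> simp only [wt] <;> linarith

lemma wt_le_one (p : unitInterval) (c : Cell) : wt p c ≤ 1 := by
  have h0 : (0 : ℝ) ≤ p := p.2.1
  have h1 : (p : ℝ) ≤ 1 := p.2.2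
  cases c <;> simp only [wt] <;> linarith

lemma KK_ge {p : unitInterval} (h0 : (0 : ℝ) < p) (h1 : (p : ℝ) < 1) : 1 ≤ KK p := by
  have h2 : (wt p Cell.empty)⁻¹ ≤ KK p :=
    Finset.single_le_sum (f := fun c => (wt p c)⁻¹)
      (fun c _ => (inv_pos.mpr (wt_pos h0 h1 c)).le) (Finset.mem_univ Cell.empty)
  have h3 : 1 ≤ (wt p Cell.empty)⁻¹ := (one_le_inv₀ (wt_pos h0 h1 _)).mpr (wt_le_one p _)
  linarith

lemma KK_eq {p : unitInterval} : KK p = (1 - (p : ℝ))⁻¹ + ((p : ℝ) / 2)⁻¹ + ((p : ℝ) / 2)⁻¹ := by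
  have : (Finset.univ : Finset Cell) = {Cell.empty, Cell.ne, Cell.nw} := rfl
  rw [KK, this]
  rw [Finset.sum_insert (by simp), Finset.sum_insert (by simp), Finset.sum_singleton]
  simp only [wt]
  ring

/-- the superhighway estimate -/
lemma case2 {p : unitInterval} (h0 : (0 : ℝ) < p) (h1 : (p : ℝ) < 1) {X y y' Y : ℤ} (hX : 1 ≤ X)
    (hy : 1 ≤ y) (hyy : y + 2 * X ≤ y') (hY : y' ≤ Y) :
    qq p X y ^ 2 - 2 * (qq p X y - qq p X y') ≤ (2 * X) ^ 2 * KK p * al p X Y := by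
  set x0 := -X - y with hx0
  have hV := measurableSet_tube X y
  have hV' := measurableSet_tube X y'
  have hH := measurableSet_tube' X x0 y
  have hH' := measurableSet_tube' X x0 y'
  have hVV : Tube X y' ⊆ Tube X y := tube_anti hy (by omega)
  have hHH : Tube' X x0 y' ⊆ Tube' X x0 y := tube'_anti hy (by omega)
  have i1 : (mirrorLaw p).real (Tube X y ∩ Tube' X x0 y) = qq p X y * qq p X y := by
    rw [real_inter hV hH (depOn_hit _ _ _) (depOn_hit _ _ _), real_tube']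
    · rfl
    · rw [Set.disjoint_left]
      rintro v ⟨h2, -⟩ ⟨-, -, h3⟩
      rw [abs_lt] at h2
      omega
  have i2 : (mirrorLaw p).real (Tube X y \ Tube X y') = qq p X y - qq p X y' := by
    rw [measureReal_sdiff hVV hV']; rfl
  have i3 : (mirrorLaw p).real (Tube' X x0 y \ Tube' X x0 y') = qq p X y - qq p X y' := by
    rw [measureReal_sdiff hHH hH', real_tube', real_tube']
  have i4 : (mirrorLaw p).real (Tube X y ∩ Tube' X x0 y) ≤
      (mirrorLaw p).real (Tube X y' ∩ Tube' X x0 y') +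
      (mirrorLaw p).real (Tube X y \ Tube X y') +
      (mirrorLaw p).real (Tube' X x0 y \ Tube' X x0 y') := by
    refine le_trans (measureReal_mono (s₂ := (Tube X y' ∩ Tube' X x0 y') ∪
      (Tube X y \ Tube X y') ∪ (Tube' X x0 y \ Tube' X x0 y')) ?_) ?_
    · rintro ω ⟨h2, h3⟩
      by_cases h4 : ω ∈ Tube X y' <;> by_cases h5 : ω ∈ Tube' X x0 y' <;>
        simp [h2, h3, h4, h5]
    · refine le_trans (measureReal_union_le _ _) ?_
      gcongr
      exact measureReal_union_le _ _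
  set Sq := Finset.Ioo (-X) X ×ˢ Finset.Ioo 0 (2 * X) with hSq
  have i5 : (mirrorLaw p).real (Tube X y' ∩ Tube' X x0 y') ≤
      ∑ v ∈ Sq, ∑ c : Cell, (mirrorLaw p).real {ω | Function.update ω v c ∈ Side X Y} := by
    refine le_trans (measureReal_mono (s₂ := ⋃ v ∈ Sq, ⋃ c ∈ (Finset.univ : Finset Cell),
      {ω | Function.update ω v c ∈ Side X Y}) ?_ (measure_ne_top _ _)) ?_
    · rintro ω ⟨h2, h3⟩
      obtain ⟨v, hv, c, hc⟩ := surgery hX (by omega) (by omega) (by omega) hY h2 h3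
      simp only [Set.mem_iUnion]
      exact ⟨v, hv, c, Finset.mem_univ _, hc⟩
    · refine le_trans (measureReal_biUnion_finset_le _ _) ?_
      refine Finset.sum_le_sum fun v _ => ?_
      exact measureReal_biUnion_finset_le _ _
  have i6 : ∑ v ∈ Sq, ∑ c : Cell, (mirrorLaw p).real {ω | Function.update ω v c ∈ Side X Y} ≤
      ∑ v ∈ Sq, KK p * al p X Y := by
    refine Finset.sum_le_sum fun v _ => ?_
    rw [KK, Finset.sum_mul]
    refine Finset.sum_le_sum fun c _ => ?_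
    have h2 := real_update_le (p := p) v c (measurableSet_side X Y)
    have h3 := wt_pos h0 h1 c
    rw [inv_mul_eq_div, le_div_iff₀ h3]
    exact h2
  have i7 : (Sq.card : ℝ) ≤ (2 * X) ^ 2 := by
    rw [hSq, Finset.card_product, Int.card_Ioo, Int.card_Ioo]
    have e1 : ((X - -X - 1).toNat : ℤ) = 2 * X - 1 := by
      rw [Int.toNat_of_nonneg (by omega)]; ring
    have e2 : ((2 * X - 0 - 1).toNat : ℤ) = 2 * X - 1 := by
      rw [Int.toNat_of_nonneg (by omega)]; ring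
    have e3 : (((X - -X - 1).toNat * (2 * X - 0 - 1).toNat : ℕ) : ℤ) ≤ (2 * X) ^ 2 := by
      rw [Nat.cast_mul, e1, e2]; nlinarith
    exact_mod_cast e3
  rw [Finset.sum_const, nsmul_eq_mul] at i6
  have i8 : 0 ≤ KK p * al p X Y := mul_nonneg (by linarith [KK_ge h0 h1]) (al_nonneg _ _ _)
  have i9 := mul_le_mul_of_nonneg_right i7 i8
  rw [i1, i2, i3] at i4
  nlinarith

/-- either the ray goes to the side, or it stays in the tube -/
lemma case1 (p : unitInterval) {X Y : ℤ} (hX : 1 ≤ X) (hY : 1 ≤ Y) :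
    cc p Y ≤ qq p X Y + 2 * al p X Y := by
  set S' : Set (V → Cell) :=
    {ω | Hit ω st0 {v | 1 ≤ v.2 ∧ v.2 ≤ Y} {v | v.1 = -X ∧ 1 ≤ v.2 ∧ v.2 ≤ Y}} with hS'
  have h1 : (mirrorLaw p).real S' = al p X Y := by
    have h := (Sym.reflX 0).real_hit p st0 {v | 1 ≤ v.2 ∧ v.2 ≤ Y}
      {v | v.1 = -X ∧ 1 ≤ v.2 ∧ v.2 ≤ Y}
    have e1 : ((Sym.reflX 0).e st0.1, (Sym.reflX 0).L st0.2) = st0 := by
      simp [Sym.reflX, st0]
    have e2 : (Sym.reflX 0).e ⁻¹' {v : V | 1 ≤ v.2 ∧ v.2 ≤ Y} = {v | 1 ≤ v.2 ∧ v.2 ≤ Y} := by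
      ext ⟨a, b⟩
      simp [Sym.reflX]
    have e3 : (Sym.reflX 0).e ⁻¹' {v : V | v.1 = -X ∧ 1 ≤ v.2 ∧ v.2 ≤ Y} =
        {v | v.1 = X ∧ 1 ≤ v.2 ∧ v.2 ≤ Y} := by
      ext ⟨a, b⟩
      simp [Sym.reflX]
    rw [e1, e2, e3] at h
    exact h
  have h2 : Up Y ⊆ Tube X Y ∪ (Side X Y ∪ S') := by
    rintro ω ⟨n, hn, hT, hU⟩
    simp only [Set.mem_ofPred_eq] at hT hU
    have hrow : ∀ k, 1 ≤ k → k ≤ n → 1 ≤ (tr ω st0 k).1.2 ∧ (tr ω st0 k).1.2 ≤ Y := by
      intro k hk hk'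
      rcases lt_or_eq_of_le hk' with h | h
      · have := hU k hk h; omega
      · subst h; omega
    by_cases h3 : ∃ k ≤ n, X ≤ (tr ω st0 k).1.1
    · obtain ⟨k, hk, hk'⟩ := h3
      right; left
      obtain ⟨m, hm1, hmn, hm, -⟩ := exists_first (f := fun k => (tr ω st0 k).1.1)
        (n := k) (h := X) (by simp [st0]; omega) hk' (fun k _ => (col_step isDir_st0 k).1)
      exact ⟨m, hm1, ⟨hm, hrow m hm1 (by omega)⟩, fun i hi hi' => hrow i hi (by omega)⟩
    by_cases h4 : ∃ k ≤ n, X ≤ -(tr ω st0 k).1.1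
    · obtain ⟨k, hk, hk'⟩ := h4
      right; right
      obtain ⟨m, hm1, hmn, hm, -⟩ := exists_first (f := fun k => -(tr ω st0 k).1.1)
        (n := k) (h := X) (by simp [st0]; omega) hk'
        (fun k _ => by have := (col_step (ω := ω) isDir_st0 k).2; omega)
      exact ⟨m, hm1, ⟨by omega, hrow m hm1 (by omega)⟩,
        fun i hi hi' => hrow i hi (by omega)⟩
    left
    push Not at h3 h4
    have habs : ∀ k ≤ n, |(tr ω st0 k).1.1| < X := by
      intro k hk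
      have := h3 k hk
      have := h4 k hk
      rw [abs_lt]
      constructor <;> omega
    exact ⟨n, hn, ⟨habs n le_rfl, hT⟩, fun k hk hk' => ⟨habs k hk'.le, hU k hk hk'⟩⟩
  have h3 : cc p Y ≤ (mirrorLaw p).real (Tube X Y ∪ (Side X Y ∪ S')) := measureReal_mono h2
  have h4 := measureReal_union_le (μ := mirrorLaw p) (Tube X Y) (Side X Y ∪ S')
  have h5 := measureReal_union_le (μ := mirrorLaw p) (Side X Y) S'
  rw [h1] at h5
  have h6 : (mirrorLaw p).real (Side X Y) = al p X Y := rfl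
  have h7 : (mirrorLaw p).real (Tube X Y) = qq p X Y := rfl
  linarith

/-! ### The lower bound for the arcs -/

/-- the ray comes back to row `0` at the vertex `(2 s, 0)` without going above row `Y` -/
def Arc (s Y : ℤ) : Set (V → Cell) := {ω | Hit ω st0 {v | 1 ≤ v.2 ∧ v.2 ≤ Y} {(2 * s, 0)}}

lemma measurableSet_arc (s Y : ℤ) : MeasurableSet (Arc s Y) := measurableSet_hit _ _ _

lemma arc_lower (p : unitInterval) {X Y s : ℤ} (hs : 1 ≤ s) (hsX : s ≤ X) (hY : 1 ≤ Y) :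
    (1 - (p : ℝ)) * al p X Y ^ 2 ≤ Y * (mirrorLaw p).real (Arc s Y) := by
  set A : ℤ → Set (V → Cell) := fun y =>
    {ω | Hit ω st0 {v | v.1 < s ∧ 1 ≤ v.2 ∧ v.2 ≤ Y} {(s, y)}} with hA
  set B : ℤ → Set (V → Cell) := fun y =>
    {ω | Hit ω ((2 * s, 0), (0, 1)) {v | s < v.1 ∧ 1 ≤ v.2 ∧ v.2 ≤ Y} {(s, y)}} with hB
  set C : ℤ → Set (V → Cell) := fun y => {ω | ω (s, y) = Cell.empty} with hC
  have mA : ∀ y, MeasurableSet (A y) := fun y => measurableSet_hit _ _ _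
  have mB : ∀ y, MeasurableSet (B y) := fun y => measurableSet_hit _ _ _
  have mC : ∀ y, MeasurableSet (C y) := fun y => by
    have h0 : MeasurableSet ((fun ω : V → Cell => ω (s, y)) ⁻¹' {Cell.empty}) :=
      (measurable_pi_apply _) (MeasurableSet.of_discrete)
    exact h0
  have hAB : ∀ y, (mirrorLaw p).real (B y) = (mirrorLaw p).real (A y) := by
    intro y
    have h := (Sym.reflX (2 * s)).real_hit p st0 {v | s < v.1 ∧ 1 ≤ v.2 ∧ v.2 ≤ Y} {(s, y)}
    have e1 : ((Sym.reflX (2 * s)).e st0.1, (Sym.reflX (2 * s)).L st0.2) =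
        (((2 * s, 0), (0, 1)) : V × V) := by
      simp [Sym.reflX, st0]
    have e2 : (Sym.reflX (2 * s)).e ⁻¹' {v : V | s < v.1 ∧ 1 ≤ v.2 ∧ v.2 ≤ Y} =
        {v | v.1 < s ∧ 1 ≤ v.2 ∧ v.2 ≤ Y} := by
      ext ⟨a, b⟩
      simp [Sym.reflX]
      intro _ _
      constructor <;> intro h <;> omega
    have e3 : (Sym.reflX (2 * s)).e ⁻¹' {(s, y)} = {(s, y)} := by
      ext ⟨a, b⟩
      simp [Sym.reflX]
      intro _
      constructor <;> intro h <;> omega
    rw [e1, e2, e3] at h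
    exact h
  have hABC : ∀ y, (mirrorLaw p).real (A y ∩ B y ∩ C y) =
      (1 - (p : ℝ)) * (mirrorLaw p).real (A y) ^ 2 := by
    intro y
    have d1 : DepOn (A y ∩ B y) {v | v.1 ≠ s} :=
      ((depOn_hit _ _ _).mono (fun v hv => ne_of_lt hv.1)).inter
        ((depOn_hit _ _ _).mono (fun v hv => (ne_of_lt hv.1).symm))
    have d2 : DepOn (C y) {(s, y)} := by
      intro ω ω' h hω
      simp only [hC, Set.mem_ofPred_eq] at hω ⊢
      rw [← h _ rfl]; exact hω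
    rw [real_inter ((mA y).inter (mB y)) (mC y) d1 d2,
      real_inter (mA y) (mB y) (depOn_hit _ _ _) (depOn_hit _ _ _), hAB,
      measure_cell, cellLaw_real]
    · simp only [wt]; ring
    · rw [Set.disjoint_left]
      rintro v ⟨h2, -⟩ ⟨h3, -⟩
      exact absurd h2 (not_lt.mpr h3.le)
    · rw [Set.disjoint_left]
      intro v h2 h3
      exact h2 (by rw [h3])
  have hdisj : Set.PairwiseDisjoint (↑(Finset.Icc 1 Y)) (fun y => A y ∩ B y ∩ C y) := by
    intro y _ y' _ hyy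
    rw [Function.onFun, Set.disjoint_left]
    rintro ω ⟨⟨h1, -⟩, -⟩ ⟨⟨h2, -⟩, -⟩
    obtain ⟨v, h3, h4⟩ := Hit.inter h1 h2 (by rintro v rfl; simp) (by rintro v rfl; simp)
    rw [Set.mem_singleton_iff] at h3 h4
    rw [h3] at h4
    exact hyy (Prod.ext_iff.mp h4).2
  have hsub : (⋃ y ∈ Finset.Icc 1 Y, A y ∩ B y ∩ C y) ⊆ Arc s Y := by
    intro ω hω
    simp only [Set.mem_iUnion, Finset.mem_Icc] at hω
    obtain ⟨y, ⟨hy1, hy2⟩, ⟨h1, h2⟩, h3⟩ := hω
    exact join_hit hs hy1 hy2 h1 h2 h3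
  have h1 : ∑ y ∈ Finset.Icc 1 Y, (1 - (p : ℝ)) * (mirrorLaw p).real (A y) ^ 2 ≤
      (mirrorLaw p).real (Arc s Y) := by
    rw [← Finset.sum_congr rfl fun y _ => hABC y, ← measureReal_biUnion_finset hdisj
      (fun y _ => ((mA y).inter (mB y)).inter (mC y))]
    exact measureReal_mono hsub
  have h2 : al p X Y ≤ ∑ y ∈ Finset.Icc 1 Y, (mirrorLaw p).real (A y) := by
    refine le_trans (measureReal_mono (s₂ := ⋃ y ∈ Finset.Icc 1 Y, A y) ?_
      (measure_ne_top _ _)) (measureReal_biUnion_finset_le _ _)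
    rintro ω ⟨n, hn, hT, hU⟩
    simp only [Set.mem_ofPred_eq] at hT hU
    obtain ⟨m, hm1, hmn, hm, hlt⟩ := exists_first (f := fun k => (tr ω st0 k).1.1)
      (n := n) (h := s) (by simp [st0]; omega) (by omega)
      (fun k _ => (col_step isDir_st0 k).1)
    have hrow : ∀ k, 1 ≤ k → k ≤ n → 1 ≤ (tr ω st0 k).1.2 ∧ (tr ω st0 k).1.2 ≤ Y := by
      intro k hk hk'
      rcases lt_or_eq_of_le hk' with h | h
      · exact hU k hk h
      · subst h; exact hT.2
    simp only [Set.mem_iUnion, Finset.mem_Icc]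
    refine ⟨(tr ω st0 m).1.2, hrow m hm1 hmn, m, hm1, Prod.ext hm rfl, fun k hk hk' =>
      ⟨hlt k hk', hrow k hk (by omega)⟩⟩
  have h3 : (∑ y ∈ Finset.Icc 1 Y, (mirrorLaw p).real (A y)) ^ 2 ≤
      (Finset.Icc 1 Y).card * ∑ y ∈ Finset.Icc 1 Y, (mirrorLaw p).real (A y) ^ 2 :=
    sq_sum_le_card_mul_sum_sq
  have h4 : ((Finset.Icc 1 Y).card : ℝ) = Y := by
    rw [Int.card_Icc]
    have : (((Y + 1 - 1).toNat : ℕ) : ℤ) = Y := by
      rw [Int.toNat_of_nonneg (by omega)]; ring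
    exact_mod_cast this
  have hp : 0 ≤ 1 - (p : ℝ) := by linarith [p.2.2]
  have h5 : al p X Y ^ 2 ≤ (∑ y ∈ Finset.Icc 1 Y, (mirrorLaw p).real (A y)) ^ 2 :=
    pow_le_pow_left₀ (al_nonneg _ _ _) h2 2
  rw [← Finset.mul_sum] at h1
  rw [h4] at h3
  have hY' : (0 : ℝ) ≤ Y := by exact_mod_cast (by omega : (0 : ℤ) ≤ Y)
  calc (1 - (p : ℝ)) * al p X Y ^ 2 ≤ (1 - (p : ℝ)) *
        (Y * ∑ y ∈ Finset.Icc 1 Y, (mirrorLaw p).real (A y) ^ 2) :=
        mul_le_mul_of_nonneg_left (h5.trans h3) hp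
    _ = Y * ((1 - (p : ℝ)) * ∑ y ∈ Finset.Icc 1 Y, (mirrorLaw p).real (A y) ^ 2) := by ring
    _ ≤ Y * (mirrorLaw p).real (Arc s Y) := mul_le_mul_of_nonneg_left h1 hY'

end Pool.Agent.Helper894_Mirror
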