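import Pool.Agent.Helper894_Mirror.Prob

/-!
# The recursive inequality
-/

open MeasureTheory ProbabilityTheory

namespace Pool.Agent.Helper894_Mirror

/-- from `(x, Y)` going north, the ray reaches row `Y + h` before it comes back to row `Y` -/
def BB (Y h x : ℤ) : Set (V → Cell) :=
  {ω | Hit ω ((x, Y), (0, 1)) {v | Y < v.2 ∧ v.2 < Y + h} {v | v.2 = Y + h}}

/-- from `(x, Y + 1)` going south, the ray reaches `(z, 0)` while staying between row `1` and
row `Y + h - 1` -/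
def RR (Y h x z : ℤ) : Set (V → Cell) :=
  {ω | Hit ω ((x, Y + 1), (0, -1)) {v | 1 ≤ v.2 ∧ v.2 < Y + h} {(z, 0)}}

/-- from `(0, Y + 1)` going south, the ray comes back to row `Y + 1` at `(D, Y + 1)` before
reaching row `0` -/
def AA (Y D : ℤ) : Set (V → Cell) :=
  {ω | Hit ω ((0, Y + 1), (0, -1)) {v | 1 ≤ v.2 ∧ v.2 ≤ Y} {(D, Y + 1)}}

lemma measurableSet_BB (Y h x : ℤ) : MeasurableSet (BB Y h x) := measurableSet_hit _ _ _
lemma measurableSet_RR (Y h x z : ℤ) : MeasurableSet (RR Y h x z) := measurableSet_hit _ _ _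
lemma measurableSet_AA (Y D : ℤ) : MeasurableSet (AA Y D) := measurableSet_hit _ _ _

lemma real_BB (p : unitInterval) (Y h x : ℤ) : (mirrorLaw p).real (BB Y h x) = cc p h := by
  have e := (Sym.trans (x, Y)).real_hit p st0 {v | Y < v.2 ∧ v.2 < Y + h} {v | v.2 = Y + h}
  have e1 : ((Sym.trans (x, Y)).e st0.1, (Sym.trans (x, Y)).L st0.2) =
      (((x, Y), (0, 1)) : V × V) := by
    simp [Sym.trans, st0]
  have e2 : (Sym.trans (x, Y)).e ⁻¹' {v : V | Y < v.2 ∧ v.2 < Y + h} =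
      {v | 1 ≤ v.2 ∧ v.2 < h} := by
    ext ⟨a, b⟩
    simp [Sym.trans]
    constructor <;> rintro ⟨h2, h3⟩ <;> constructor <;> omega
  have e3 : (Sym.trans (x, Y)).e ⁻¹' {v : V | v.2 = Y + h} = {v | v.2 = h} := by
    ext ⟨a, b⟩
    simp [Sym.trans]
    constructor <;> intro h <;> omega
  rw [e1, e2, e3] at e
  exact e

lemma real_AA (p : unitInterval) (Y s : ℤ) :
    (mirrorLaw p).real (AA Y (2 * s)) = (mirrorLaw p).real (Arc s Y) := by
  have e := (Sym.reflY (Y + 1)).real_hit p st0 {v | 1 ≤ v.2 ∧ v.2 ≤ Y} {(2 * s, Y + 1)}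
  have e1 : ((Sym.reflY (Y + 1)).e st0.1, (Sym.reflY (Y + 1)).L st0.2) =
      (((0, Y + 1), (0, -1)) : V × V) := by
    simp [Sym.reflY, st0]
  have e2 : (Sym.reflY (Y + 1)).e ⁻¹' {v : V | 1 ≤ v.2 ∧ v.2 ≤ Y} =
      {v | 1 ≤ v.2 ∧ v.2 ≤ Y} := by
    ext ⟨a, b⟩
    simp [Sym.reflY]
    constructor <;> rintro ⟨h2, h3⟩ <;> constructor <;> omega
  have e3 : (Sym.reflY (Y + 1)).e ⁻¹' {(2 * s, Y + 1)} = {(2 * s, 0)} := by
    ext ⟨a, b⟩
    simp [Sym.reflY]
  rw [e1, e2, e3] at e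
  exact e

lemma shift_pre (Y h x z : ℤ) :
    (Sym.trans (x, 0)).act ⁻¹' (RR Y h x z ∩ BB Y h x) = RR Y h 0 (z - x) ∩ BB Y h 0 := by
  ext ω
  have h1 := (Sym.trans (x, 0)).hit_act ω ((0, Y + 1), (0, -1))
    {v | 1 ≤ v.2 ∧ v.2 < Y + h} {(z, 0)}
  have h2 := (Sym.trans (x, 0)).hit_act ω ((0, Y), (0, 1))
    {v | Y < v.2 ∧ v.2 < Y + h} {v | v.2 = Y + h}
  have e1 : ((Sym.trans (x, 0)).e (0, Y + 1), (Sym.trans (x, 0)).L (0, -1)) =
      (((x, Y + 1), (0, -1)) : V × V) := by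
    simp [Sym.trans]
  have e2 : ((Sym.trans (x, 0)).e (0, Y), (Sym.trans (x, 0)).L (0, 1)) =
      (((x, Y), (0, 1)) : V × V) := by
    simp [Sym.trans]
  have e3 : (Sym.trans (x, 0)).e ⁻¹' {v : V | 1 ≤ v.2 ∧ v.2 < Y + h} =
      {v : V | 1 ≤ v.2 ∧ v.2 < Y + h} := by
    ext ⟨a, b⟩
    simp [Sym.trans]
  have e4 : (Sym.trans (x, 0)).e ⁻¹' {v : V | Y < v.2 ∧ v.2 < Y + h} =
      {v : V | Y < v.2 ∧ v.2 < Y + h} := by
    ext ⟨a, b⟩
    simp [Sym.trans]
  have e5 : (Sym.trans (x, 0)).e ⁻¹' {v : V | v.2 = Y + h} = {v : V | v.2 = Y + h} := by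
    ext ⟨a, b⟩
    simp [Sym.trans]
  have e6 : (Sym.trans (x, 0)).e ⁻¹' {(z, 0)} = {(z - x, 0)} := by
    ext ⟨a, b⟩
    simp [Sym.trans]
    intro _
    constructor <;> intro h <;> omega
  rw [e3, e6] at h1
  rw [e4, e5] at h2
  change (Sym.trans (x, 0)).act ω ∈ RR Y h x z ∩ BB Y h x ↔ _
  simp only [Set.mem_inter_iff, RR, BB, Set.mem_ofPred_eq]
  rw [← e1, ← e2]
  exact and_congr h1 h2

lemma rr_disj {Y h : ℤ} : Pairwise (Function.onFun Disjoint
    (fun z : ℤ => RR Y h 0 z ∩ BB Y h 0)) := by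
  intro z z' hz
  rw [Function.onFun, Set.disjoint_left]
  rintro ω ⟨h1, -⟩ ⟨h2, -⟩
  obtain ⟨v, h3, h4⟩ := Hit.inter h1 h2 (by rintro v rfl; simp) (by rintro v rfl; simp)
  rw [Set.mem_singleton_iff] at h3 h4
  rw [h3] at h4
  exact hz (Prod.ext_iff.mp h4).1

/-- mass transport -/
lemma cc_le_union {p : unitInterval} {Y h : ℤ} (hY : 1 ≤ Y) (hh : 1 ≤ h) :
    cc p (Y + h) ≤ (mirrorLaw p).real (⋃ z : ℤ, RR Y h 0 z ∩ BB Y h 0) := by
  have h1 : mirrorLaw p (Up (Y + h)) ≤ ∑' x : ℤ, mirrorLaw p (RR Y h x 0 ∩ BB Y h x) := by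
    refine le_trans (measure_mono ?_) (measure_iUnion_le _)
    intro ω hω
    obtain ⟨x, hx1, hx2⟩ := last_passage hY hh hω
    exact Set.mem_iUnion.mpr ⟨x, hx2, hx1⟩
  have h2 : ∀ x : ℤ, mirrorLaw p (RR Y h x 0 ∩ BB Y h x) =
      mirrorLaw p (RR Y h 0 (-x) ∩ BB Y h 0) := by
    intro x
    have h3 := ((Sym.trans (x, 0)).measurePreserving p).measure_preimage
      (((measurableSet_RR Y h x 0).inter (measurableSet_BB Y h x)).nullMeasurableSet)
    rw [← h3, shift_pre]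
    simp
  have h4 : ∑' x : ℤ, mirrorLaw p (RR Y h x 0 ∩ BB Y h x) =
      mirrorLaw p (⋃ z : ℤ, RR Y h 0 z ∩ BB Y h 0) := by
    rw [measure_iUnion rr_disj
      (fun z => (measurableSet_RR Y h 0 z).inter (measurableSet_BB Y h 0))]
    rw [tsum_congr h2]
    exact (Equiv.neg ℤ).tsum_eq (fun z => mirrorLaw p (RR Y h 0 z ∩ BB Y h 0))
  rw [h4] at h1
  exact ENNReal.toReal_mono (measure_ne_top _ _) h1

/-- the recursive inequality -/
lemma rec_step {p : unitInterval} {Y h : ℤ} (hY : 1 ≤ Y) (hh : 1 ≤ h) (S : Finset ℤ) :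
    cc p (Y + h) + ∑ s ∈ S, (mirrorLaw p).real (BB Y h 0 ∩ BB Y h (2 * s)) *
      (mirrorLaw p).real (Arc s Y) ≤ cc p h := by
  set M : ℤ → Set (V → Cell) := fun s => BB Y h 0 ∩ BB Y h (2 * s) ∩ AA Y (2 * s) with hM
  have mM : ∀ s, MeasurableSet (M s) := fun s =>
    ((measurableSet_BB _ _ _).inter (measurableSet_BB _ _ _)).inter (measurableSet_AA _ _)
  have hMr : ∀ s, (mirrorLaw p).real (M s) = (mirrorLaw p).real (BB Y h 0 ∩ BB Y h (2 * s)) *
      (mirrorLaw p).real (Arc s Y) := by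
    intro s
    rw [hM, real_inter (S := {v | Y < v.2}) (T := {v | v.2 ≤ Y})
      ((measurableSet_BB _ _ _).inter (measurableSet_BB _ _ _)) (measurableSet_AA _ _),
      real_AA]
    · exact ((depOn_hit _ _ _).mono (fun v hv => hv.1)).inter
        ((depOn_hit _ _ _).mono (fun v hv => hv.1))
    · exact (depOn_hit _ _ _).mono (fun v hv => hv.2)
    · rw [Set.disjoint_left]
      intro v h1 h2
      simp only [Set.mem_ofPred_eq] at h1 h2
      omega
  have hdisj : Set.PairwiseDisjoint (↑S) M := by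
    intro s _ s' _ hss
    rw [Function.onFun, Set.disjoint_left]
    rintro ω ⟨-, h1⟩ ⟨-, h2⟩
    obtain ⟨v, h3, h4⟩ := Hit.inter h1 h2 (by rintro v rfl; simp) (by rintro v rfl; simp)
    rw [Set.mem_singleton_iff] at h3 h4
    rw [h3] at h4
    have := (Prod.ext_iff.mp h4).1
    simp only at this
    exact hss (by omega)
  have h1 : (mirrorLaw p).real (⋃ s ∈ S, M s) = ∑ s ∈ S,
      (mirrorLaw p).real (BB Y h 0 ∩ BB Y h (2 * s)) * (mirrorLaw p).real (Arc s Y) := by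
    rw [measureReal_biUnion_finset hdisj (fun s _ => mM s)]
    exact Finset.sum_congr rfl fun s _ => hMr s
  have h2 : Disjoint (⋃ z : ℤ, RR Y h 0 z ∩ BB Y h 0) (⋃ s ∈ S, M s) := by
    rw [Set.disjoint_left]
    intro ω h3 h4
    simp only [Set.mem_iUnion] at h3 h4
    obtain ⟨z, h5, -⟩ := h3
    obtain ⟨s, hs, ⟨-, h6⟩, h7⟩ := h4
    have h8 := arc_then_up hh ((0, Y + 1), (0, -1)) (by simp [IsDir]) rfl h7 h6 hY
    obtain ⟨v, h9, h10⟩ := Hit.inter h5 h8 (by rintro v rfl; simp) (by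
      intro v hv hv'
      simp only [Set.mem_ofPred_eq] at hv hv'
      omega)
    rw [Set.mem_singleton_iff] at h9
    subst h9
    simp only [Set.mem_ofPred_eq] at h10
    omega
  have h3 : (⋃ z : ℤ, RR Y h 0 z ∩ BB Y h 0) ∪ (⋃ s ∈ S, M s) ⊆ BB Y h 0 := by
    intro ω hω
    rcases hω with hω | hω
    · simp only [Set.mem_iUnion] at hω
      obtain ⟨z, -, h4⟩ := hω
      exact h4
    · simp only [Set.mem_iUnion] at hω
      obtain ⟨s, hs, ⟨h4, -⟩, -⟩ := hω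
      exact h4
  have h4 := measureReal_mono (μ := mirrorLaw p) h3 (measure_ne_top _ _)
  rw [measureReal_union h2 (MeasurableSet.biUnion (Finset.countable_toSet S)
    (fun s _ => mM s)) (measure_ne_top _ _) (measure_ne_top _ _), h1, real_BB] at h4
  have h5 := cc_le_union (p := p) hY hh
  linarith

/-- the pair correlations have a large sum -/
lemma pair_sum (p : unitInterval) (Y h : ℤ) {N : ℕ} :
    (N : ℝ) * (cc p h - ∑ s ∈ Finset.Ico (1 : ℤ) N,
      (mirrorLaw p).real (BB Y h 0 ∩ BB Y h (2 * s))) ≤ 1 := by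
  set ρ : ℤ → ℝ := fun s => (mirrorLaw p).real (BB Y h 0 ∩ BB Y h (2 * s)) with hρ
  have hρ0 : ∀ s, 0 ≤ ρ s := fun s => measureReal_nonneg
  have hshift : ∀ i j : ℤ, (mirrorLaw p).real (BB Y h (2 * i) ∩ BB Y h (2 * j)) =
      ρ (j - i) := by
    intro i j
    rw [← (Sym.trans (2 * i, 0)).real_preimage p
      ((measurableSet_BB _ _ _).inter (measurableSet_BB _ _ _))]
    congr 1
    ext ω
    have key : ∀ a : ℤ, (Sym.trans (2 * i, 0)).act ω ∈ BB Y h (a + 2 * i) ↔ ω ∈ BB Y h a := by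
      intro a
      have h2 := (Sym.trans (2 * i, 0)).hit_act ω ((a, Y), (0, 1))
        {v | Y < v.2 ∧ v.2 < Y + h} {v | v.2 = Y + h}
      have e2 : ((Sym.trans (2 * i, 0)).e (a, Y), (Sym.trans (2 * i, 0)).L (0, 1)) =
          (((a + 2 * i, Y), (0, 1)) : V × V) := by
        simp [Sym.trans]
      have e4 : (Sym.trans (2 * i, 0)).e ⁻¹' {v : V | Y < v.2 ∧ v.2 < Y + h} =
          {v : V | Y < v.2 ∧ v.2 < Y + h} := by
        ext ⟨a, b⟩
        simp [Sym.trans]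
      have e5 : (Sym.trans (2 * i, 0)).e ⁻¹' {v : V | v.2 = Y + h} =
          {v : V | v.2 = Y + h} := by
        ext ⟨a, b⟩
        simp [Sym.trans]
      rw [e4, e5] at h2
      simp only [BB, Set.mem_ofPred_eq]
      rw [← e2]
      exact h2
    have k1 := key 0
    have k2 := key (2 * (j - i))
    have e1 : 2 * (j - i) + 2 * i = 2 * j := by ring
    rw [zero_add] at k1
    rw [e1] at k2
    change (Sym.trans (2 * i, 0)).act ω ∈ (BB Y h (2 * i) ∩ BB Y h (2 * j)) ↔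
      ω ∈ (BB Y h 0 ∩ BB Y h (2 * (j - i)))
    rw [Set.mem_inter_iff, Set.mem_inter_iff, k1, k2]
  set E : ℤ → Set (V → Cell) := fun i =>
    BB Y h (2 * i) \ ⋃ j ∈ Finset.Ioo i (N : ℤ), BB Y h (2 * j) with hE
  have mE : ∀ i, MeasurableSet (E i) := fun i => (measurableSet_BB _ _ _).diff
    (MeasurableSet.biUnion (Finset.countable_toSet _) (fun j _ => measurableSet_BB _ _ _))
  have hEd : Set.PairwiseDisjoint (↑(Finset.Ico (0 : ℤ) N)) E := by
    have key : ∀ i j : ℤ, i < j → j < N → Disjoint (E i) (E j) := by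
      intro i j hij hj
      rw [Set.disjoint_left]
      rintro ω ⟨-, h1⟩ ⟨h2, -⟩
      exact h1 (Set.mem_biUnion (Finset.mem_coe.mpr (Finset.mem_Ioo.mpr ⟨hij, hj⟩)) h2)
    intro i hi j hj hij
    rw [Finset.mem_coe, Finset.mem_Ico] at hi hj
    rcases lt_or_gt_of_ne hij with h1 | h1
    · exact key i j h1 hj.2
    · exact (key j i h1 hi.2).symm
  have hlow : ∀ i ∈ Finset.Ico (0 : ℤ) N, cc p h - ∑ s ∈ Finset.Ico (1 : ℤ) N, ρ s ≤
      (mirrorLaw p).real (E i) := by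
    intro i hi
    rw [Finset.mem_Ico] at hi
    have h1 : cc p h ≤ (mirrorLaw p).real (E i) + ∑ j ∈ Finset.Ioo i (N : ℤ),
        (mirrorLaw p).real (BB Y h (2 * i) ∩ BB Y h (2 * j)) := by
      rw [← real_BB p Y h (2 * i)]
      refine le_trans (measureReal_mono (s₂ := E i ∪ ⋃ j ∈ Finset.Ioo i (N : ℤ),
        (BB Y h (2 * i) ∩ BB Y h (2 * j))) ?_ (measure_ne_top _ _)) ?_
      · intro ω hω
        by_cases h2 : ω ∈ ⋃ j ∈ Finset.Ioo i (N : ℤ), BB Y h (2 * j)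
        · right
          simp only [Set.mem_iUnion] at h2 ⊢
          obtain ⟨j, hj, hj'⟩ := h2
          exact ⟨j, hj, hω, hj'⟩
        · left
          exact ⟨hω, h2⟩
      · refine le_trans (measureReal_union_le _ _) ?_
        gcongr
        exact measureReal_biUnion_finset_le _ _
    have h2 : ∑ j ∈ Finset.Ioo i (N : ℤ),
        (mirrorLaw p).real (BB Y h (2 * i) ∩ BB Y h (2 * j)) ≤
        ∑ s ∈ Finset.Ico (1 : ℤ) N, ρ s := by
      rw [Finset.sum_congr rfl fun j _ => hshift i j]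
      have h3 : ∑ j ∈ Finset.Ioo i (N : ℤ), ρ (j - i) =
          ∑ s ∈ (Finset.Ioo i (N : ℤ)).image (fun j => j - i), ρ s := by
        rw [Finset.sum_image]
        intro a _ b _ hab
        simpa using hab
      rw [h3]
      refine Finset.sum_le_sum_of_subset_of_nonneg ?_ (fun s _ _ => hρ0 s)
      intro s hs
      rw [Finset.mem_image] at hs
      obtain ⟨j, hj, rfl⟩ := hs
      rw [Finset.mem_Ioo] at hj
      rw [Finset.mem_Ico]
      omega
    linarith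
  have h1 : ∑ i ∈ Finset.Ico (0 : ℤ) N, (mirrorLaw p).real (E i) ≤ 1 := by
    rw [← measureReal_biUnion_finset hEd (fun i _ => mE i)]
    exact measureReal_le_one
  have h2 := Finset.sum_le_sum hlow
  rw [Finset.sum_const, Int.card_Ico, nsmul_eq_mul] at h2
  simp only [sub_zero, Int.toNat_natCast] at h2
  exact h2.trans h1

end Pool.Agent.Helper894_Mirror
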