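import Pool.Agent.Helper894_Mirror.Far
import Pool.Agent.Helper894_Mirror.Dist

/-!
# The ray is sub-ballistic
-/

open MeasureTheory ProbabilityTheory

namespace Pool.Agent.Helper894_Mirror

/-- scalar product -/
def dot (a b : V) : ℤ := a.1 * b.1 + a.2 * b.2

lemma dot_add (a b d : V) : dot (a + b) d = dot a d + dot b d := by
  simp only [dot, Prod.fst_add, Prod.snd_add]; ring

lemma dot_sub (a b d : V) : dot (a - b) d = dot a d - dot b d := by
  simp only [dot, Prod.fst_sub, Prod.snd_sub]; ring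

lemma dot_le_one {a d : V} (ha : IsDir a) (hd : IsDir d) : dot a d ≤ 1 ∧ -1 ≤ dot a d := by
  rcases ha with ha | ha | ha | ha <;> rcases hd with hd | hd | hd | hd <;> subst ha <;>
    subst hd <;> simp [dot]

lemma dot_pos {a d : V} (ha : IsDir a) (hd : IsDir d) (h : 0 < dot a d) : a = d := by
  rcases ha with ha | ha | ha | ha <;> rcases hd with hd | hd | hd | hd <;> subst ha <;>
    subst hd <;> simp [dot] at h ⊢

/-- from the state `s`, the ray moves by `h` in the direction of its first step before it comes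
back to the line through its starting point orthogonal to this direction -/
def Run (h : ℤ) (s : V × V) (ω : V → Cell) : Prop :=
  Hit ω s {v | 0 < dot (v - s.1) s.2 ∧ dot (v - s.1) s.2 < h} {v | dot (v - s.1) s.2 = h}

lemma measurableSet_run (h : ℤ) (s : V × V) : MeasurableSet {ω | Run h s ω} :=
  measurableSet_hit _ _ _

lemma real_run_aux (p : unitInterval) {h : ℤ} {x : V} {d : V} (g : Sym)
    (e1 : g.e (0, 0) = x) (e2 : g.L (0, 1) = d)
    (e3 : ∀ v : V, dot (g.e v - x) d = v.2) :
    (mirrorLaw p).real {ω | Run h (x, d) ω} = cc p h := by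
  have e := g.real_hit p st0 {v | 0 < dot (v - x) d ∧ dot (v - x) d < h}
    {v | dot (v - x) d = h}
  have e4 : (g.e st0.1, g.L st0.2) = ((x, d) : V × V) := by
    rw [st0]; simp only [e1, e2]
  have e5 : g.e ⁻¹' {v | 0 < dot (v - x) d ∧ dot (v - x) d < h} =
      {v | 1 ≤ v.2 ∧ v.2 < h} := by
    ext v
    simp only [Set.mem_preimage, Set.mem_ofPred_eq, e3]
    constructor <;> rintro ⟨h1, h2⟩ <;> constructor <;> omega
  have e6 : g.e ⁻¹' {v | dot (v - x) d = h} = {v | v.2 = h} := by
    ext v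
    simp only [Set.mem_preimage, Set.mem_ofPred_eq, e3]
  rw [e4, e5, e6] at e
  exact e

lemma real_run (p : unitInterval) {h : ℤ} {d : V} (hd : IsDir d) :
    (mirrorLaw p).real {ω | Run h ((0, 0), d) ω} = cc p h := by
  rcases hd with hd | hd | hd | hd <;> subst hd
  · refine real_run_aux p (Sym.diag (0, 0)) ?_ ?_ ?_ <;> simp [Sym.diag, dot]
  · -- west
    rw [← real_run_aux p (h := h) (x := (0, 0)) (d := (1, 0)) (Sym.diag (0, 0))
      (by simp [Sym.diag]) (by simp [Sym.diag]) (by simp [Sym.diag, dot])]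
    have e := (Sym.reflX 0).real_hit p ((0, 0), (1, 0))
      {v | 0 < dot (v - (0, 0)) (-1, 0) ∧ dot (v - (0, 0)) (-1, 0) < h}
      {v | dot (v - (0, 0)) (-1, 0) = h}
    have e4 : ((Sym.reflX 0).e (0, 0), (Sym.reflX 0).L (1, 0)) =
        (((0, 0), (-1, 0)) : V × V) := by
      simp [Sym.reflX]
    have e5 : (Sym.reflX 0).e ⁻¹'
        {v | 0 < dot (v - (0, 0)) (-1, 0) ∧ dot (v - (0, 0)) (-1, 0) < h} =
        {v | 0 < dot (v - (0, 0)) (1, 0) ∧ dot (v - (0, 0)) (1, 0) < h} := by
      ext ⟨a, b⟩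
      simp [Sym.reflX, dot]
    have e6 : (Sym.reflX 0).e ⁻¹' {v | dot (v - (0, 0)) (-1, 0) = h} =
        {v | dot (v - (0, 0)) (1, 0) = h} := by
      ext ⟨a, b⟩
      simp [Sym.reflX, dot]
    rw [e4, e5, e6] at e
    exact e
  · refine real_run_aux p (Sym.trans (0, 0)) ?_ ?_ ?_ <;> simp [Sym.trans, dot]
  · refine real_run_aux p (Sym.reflY 0) ?_ ?_ ?_ <;> simp [Sym.reflY, dot]

lemma tr_injective (ω : V → Cell) (n : ℕ) : Function.Injective (fun s => tr ω s n) := by
  intro s s' h
  simp only at h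
  have h1 := tr_rev ω s n n le_rfl
  have h2 := tr_rev ω s' n n le_rfl
  rw [h] at h1
  rw [h1] at h2
  simp only [Nat.sub_self, tr_zero] at h2
  exact rev_injective h2

/-- the four directions as a finite set -/
def dirs : Finset V := {(1, 0), (-1, 0), (0, 1), (0, -1)}

lemma mem_dirs {d : V} : d ∈ dirs ↔ IsDir d := by
  simp [dirs, IsDir]

/-- stationarity: the probability of a run of length `h` which starts at time `t` -/
lemma real_run_time (p : unitInterval) (h : ℤ) (t : ℕ) :
    (mirrorLaw p).real {ω | Run h (tr ω st0 t) ω} ≤ 4 * cc p h := by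
  have h1 : mirrorLaw p {ω | Run h (tr ω st0 t) ω} ≤
      ∑ d ∈ dirs, mirrorLaw p {ω | Run h ((0, 0), d) ω} := by
    have h2 : {ω | Run h (tr ω st0 t) ω} ⊆
        ⋃ d ∈ dirs, ⋃ x : V, {ω | tr ω st0 t = (x, d) ∧ Run h (x, d) ω} := by
      intro ω hω
      simp only [Set.mem_iUnion]
      exact ⟨(tr ω st0 t).2, mem_dirs.mpr (isDir_tr isDir_st0 t), (tr ω st0 t).1, rfl, hω⟩
    refine (measure_mono h2).trans ((measure_biUnion_finset_le _ _).trans ?_)
    refine Finset.sum_le_sum fun d _ => (measure_iUnion_le _).trans ?_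
    have h3 : ∀ x : V, mirrorLaw p {ω | tr ω st0 t = (x, d) ∧ Run h (x, d) ω} =
        mirrorLaw p {ω | tr ω (-x, (0, 1)) t = ((0, 0), d) ∧ Run h ((0, 0), d) ω} := by
      intro x
      have hm : MeasurableSet {ω | tr ω st0 t = (x, d) ∧ Run h (x, d) ω} :=
        (measurableSet_tr_eq _ _ _).inter (measurableSet_run _ _)
      rw [← ((Sym.trans x).measurePreserving p).measure_preimage hm.nullMeasurableSet]
      congr 1
      ext ω
      have h4 := (Sym.trans x).tr_act ω (-x, (0, 1)) t
      have e1 : ((Sym.trans x).e (-x), (Sym.trans x).L (0, 1)) = st0 := by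
        simp only [Sym.trans, st0, Equiv.coe_addRight, neg_add_cancel, id_eq]
        rfl
      rw [e1] at h4
      have h5 := (Sym.trans x).hit_act ω ((0, 0), d)
        {v | 0 < dot (v - x) d ∧ dot (v - x) d < h} {v | dot (v - x) d = h}
      have e2 : ((Sym.trans x).e (0, 0), (Sym.trans x).L d) = ((x, d) : V × V) := by
        simp [Sym.trans]
      rw [e2] at h5
      have e3 : (Sym.trans x).e ⁻¹' {v | 0 < dot (v - x) d ∧ dot (v - x) d < h} =
          {v | 0 < dot (v - (0, 0)) d ∧ dot (v - (0, 0)) d < h} := by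
        ext v
        simp [Sym.trans, dot]
      have e4 : (Sym.trans x).e ⁻¹' {v | dot (v - x) d = h} =
          {v | dot (v - (0, 0)) d = h} := by
        ext v
        simp [Sym.trans, dot]
      rw [e3, e4] at h5
      refine and_congr ?_ h5
      rw [h4]
      constructor
      · intro h6
        have h7 := Prod.ext_iff.mp h6
        simp only [Sym.trans, Equiv.coe_addRight, id_eq] at h7
        refine Prod.ext ?_ h7.2
        have h8 := h7.1
        exact add_eq_right.mp h8
      · intro h6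
        rw [h6]
        simp [Sym.trans]
    rw [tsum_congr h3, ← measure_iUnion]
    · refine measure_mono ?_
      intro ω hω
      simp only [Set.mem_iUnion] at hω
      obtain ⟨x, -, h4⟩ := hω
      exact h4
    · intro x x' hx
      rw [Function.onFun, Set.disjoint_left]
      rintro ω ⟨h4, -⟩ ⟨h5, -⟩
      have h6 := tr_injective ω t (h4.trans h5.symm)
      have h7 := (Prod.ext_iff.mp h6).1
      simp only at h7
      exact hx (neg_injective h7)
    · exact fun x => (measurableSet_tr_eq _ _ _).inter (measurableSet_run _ _)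
  have h2 := ENNReal.toReal_mono (by
    rw [ne_eq, ENNReal.sum_eq_top]
    push Not
    exact fun _ _ => measure_ne_top _ _) h1
  rw [ENNReal.toReal_sum (fun _ _ => measure_ne_top _ _)] at h2
  refine h2.trans (le_of_eq ?_)
  have h3 : ∀ d ∈ dirs, (mirrorLaw p {ω | Run h ((0, 0), d) ω}).toReal = cc p h :=
    fun d hd => real_run p (mem_dirs.mp hd)
  rw [Finset.sum_congr rfl h3, Finset.sum_const, nsmul_eq_mul]
  have h4 : dirs.card = 4 := by decide
  rw [h4]
  norm_num

open Classical in
/-- if the ray goes far in a short time, then there are many runs -/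
lemma count_runs {ω : V → Cell} {d : V} (hd : IsDir d) {T t0 M h : ℕ} (hh : 1 ≤ h) (ht0 : t0 ≤ T)
    (hM : dot (tr ω st0 t0).1 d = M) :
    M ≤ h + ((Finset.range T).filter (fun t => Run h (tr ω st0 t) ω)).card := by
  set f : ℕ → ℤ := fun k => dot (tr ω st0 k).1 d with hf
  have f0 : f 0 = 0 := by simp [hf, st0, dot]
  have hstep : ∀ k, f (k + 1) ≤ f k + 1 ∧ f k ≤ f (k + 1) + 1 := by
    intro k
    simp only [hf]
    rw [tr_fst_succ, dot_add]
    have := dot_le_one (isDir_tr (ω := ω) isDir_st0 k) hd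
    omega
  · have hsub : Finset.range (M - h) ⊆ ((Finset.range T).filter
        (fun t => Run h (tr ω st0 t) ω)).image (fun k => (f k).toNat) := by
      intro j hj
      rw [Finset.mem_range] at hj
      obtain ⟨m, hm1, hmt, hm, hmlt⟩ := exists_first (f := f) (n := t0) (h := (j : ℤ) + h)
        (by rw [f0]; omega) (by simp only [hf]; rw [hM]; omega) (fun k _ => (hstep k).1)
      have hex : ∃ k ≤ m, f k = j := by
        rcases Nat.eq_zero_or_pos j with h1 | h1
        · exact ⟨0, by omega, by rw [f0, h1]; rfl⟩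
        · obtain ⟨m', -, hm'm, hm', -⟩ := exists_first (f := f) (n := m) (h := (j : ℤ))
            (by rw [f0]; omega) (by omega) (fun k _ => (hstep k).1)
          exact ⟨m', hm'm, hm'⟩
      obtain ⟨k0, hk0m, hk0⟩ := hex
      set k := Nat.findGreatest (fun k => f k = j) m with hk
      have hkj : f k = j := Nat.findGreatest_spec (P := fun k => f k = j) hk0m hk0
      have hkm : k ≤ m := Nat.findGreatest_le m
      have hkmax : ∀ i, k < i → i ≤ m → f i ≠ j := fun i hi hi' =>
        Nat.findGreatest_is_greatest (P := fun k => f k = j) hi hi'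
      have hkm' : k < m := by
        rcases lt_or_eq_of_le hkm with h1 | h1
        · exact h1
        · rw [h1] at hkj; omega
      have habove : ∀ i, k < i → i ≤ m → (j : ℤ) < f i := by
        have : ∀ l : ℕ, l ≤ m - k - 1 → (j : ℤ) < f (m - l) := by
          intro l
          induction l with
          | zero => intro _; rw [Nat.sub_zero, hm]; omega
          | succ l ih =>
            intro hl
            have h1 := ih (by omega)
            have h2 := (hstep (m - (l + 1))).1
            have h3 : m - (l + 1) + 1 = m - l := by omega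
            rw [h3] at h2
            have h4 := hkmax (m - (l + 1)) (by omega) (by omega)
            omega
        intro i hi hin
        have h1 := this (m - i) (by omega)
        have h2 : m - (m - i) = i := by omega
        rw [h2] at h1
        exact h1
      have hdir : (tr ω st0 k).2 = d := by
        have h1 := habove (k + 1) (by omega) (by omega)
        simp only [hf] at h1 hkj
        rw [tr_fst_succ, dot_add] at h1
        exact dot_pos (isDir_tr isDir_st0 k) hd (by omega)
      refine Finset.mem_image.mpr ⟨k, ?_, by rw [hkj]; rfl⟩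
      rw [Finset.mem_filter, Finset.mem_range]
      refine ⟨by omega, m - k, by omega, ?_, fun i hi hi' => ?_⟩
      · rw [← tr_add]
        have h5 : k + (m - k) = m := by omega
        rw [h5]
        simp only [Set.mem_ofPred_eq]
        rw [dot_sub, hdir]
        simp only [hf] at hm hkj
        omega
      · rw [← tr_add]
        simp only [Set.mem_ofPred_eq]
        rw [dot_sub, hdir]
        have h6 := habove (k + i) (by omega) (by omega)
        have h7 := hmlt (k + i) (by omega)
        simp only [hf] at h6 h7 hkj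
        omega
    have h1 := Finset.card_le_card hsub
    rw [Finset.card_range] at h1
    have h2 := h1.trans Finset.card_image_le
    omega

lemma exists_dot (v : V) : ∃ d, IsDir d ∧ dot v d = (max v.1.natAbs v.2.natAbs : ℕ) := by
  obtain ⟨a, b⟩ := v
  rcases le_total a.natAbs b.natAbs with h | h
  · rw [max_eq_right h]
    rcases le_total 0 b with h1 | h1
    · exact ⟨(0, 1), by simp [IsDir], by simp [dot, abs_of_nonneg h1]⟩
    · exact ⟨(0, -1), by simp [IsDir], by simp [dot, abs_of_nonpos h1]⟩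
  · rw [max_eq_left h]
    rcases le_total 0 a with h1 | h1
    · exact ⟨(1, 0), by simp [IsDir], by simp [dot, abs_of_nonneg h1]⟩
    · exact ⟨(-1, 0), by simp [IsDir], by simp [dot, abs_of_nonpos h1]⟩

open Classical in
lemma farthest_le {ω : V → Cell} {T h : ℕ} (hh : 1 ≤ h) :
    farthest ω T ≤ h + ((Finset.range T).filter (fun t => Run h (tr ω st0 t) ω)).card := by
  refine Finset.sup_le fun t ht => ?_
  rw [Finset.mem_range] at ht
  obtain ⟨d, hd, hd'⟩ := exists_dot (pos ω t)
  exact count_runs hd hh (by omega) hd'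

lemma lintegral_farthest (p : unitInterval) {T h : ℕ} (hh : 1 ≤ h) :
    ∫⁻ ω, (farthest ω T : ENNReal) ∂(mirrorLaw p) ≤
      ENNReal.ofReal (h + T * (4 * cc p h)) := by
  classical
  have h1 : ∀ ω : V → Cell, (farthest ω T : ENNReal) ≤ h + ∑ t ∈ Finset.range T,
      Set.indicator {ω | Run h (tr ω st0 t) ω} (fun _ => (1 : ENNReal)) ω := by
    intro ω
    have h2 : (farthest ω T : ENNReal) ≤
        ((h + ((Finset.range T).filter (fun t => Run h (tr ω st0 t) ω)).card : ℕ) : ENNReal) := by
      exact_mod_cast farthest_le hh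
    refine h2.trans (le_of_eq ?_)
    rw [Nat.cast_add, Finset.card_filter, Nat.cast_sum]
    congr 1
    refine Finset.sum_congr rfl fun t _ => ?_
    by_cases h3 : Run h (tr ω st0 t) ω
    · rw [if_pos h3, Set.indicator_of_mem (by exact h3)]; simp
    · rw [if_neg h3, Set.indicator_of_notMem (by exact h3)]; simp
  have hm : ∀ t : ℕ, MeasurableSet {ω | Run h (tr ω st0 t) ω} := by
    intro t
    have : {ω | Run h (tr ω st0 t) ω} =
        ⋃ z : V × V, {ω | tr ω st0 t = z} ∩ {ω | Run h z ω} := by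
      ext ω
      simp
    rw [this]
    exact MeasurableSet.iUnion fun z => (measurableSet_tr_eq _ _ _).inter (measurableSet_run _ _)
  refine (lintegral_mono h1).trans ?_
  rw [lintegral_add_left measurable_const, lintegral_const, measure_univ, mul_one,
    lintegral_finsetSum _ (fun t _ => (measurable_const.indicator (hm t)))]
  simp only [lintegral_indicator (hm _), lintegral_one, Measure.restrict_apply,
    MeasurableSet.univ, Set.univ_inter]
  have h2 : ∀ t ∈ Finset.range T, mirrorLaw p {ω | Run h (tr ω st0 t) ω} ≤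
      ENNReal.ofReal (4 * cc p h) := by
    intro t _
    rw [← ofReal_measureReal]
    exact ENNReal.ofReal_le_ofReal (real_run_time p h t)
  have h3 := Finset.sum_le_sum h2
  rw [Finset.sum_const, Finset.card_range, nsmul_eq_mul] at h3
  have h4 := cc_nonneg p h
  rw [ENNReal.ofReal_add (by positivity) (by positivity),
    ENNReal.ofReal_mul (p := (T : ℝ)) (by positivity), ENNReal.ofReal_natCast,
    ENNReal.ofReal_natCast]
  gcongr

/-- the ray is sub-ballistic, with an explicit rate -/
theorem slow_bound {p : unitInterval} (h0 : (0 : ℝ) < p) (h1 : (p : ℝ) < 1) {T : ℕ}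
    (hT : 1 ≤ T) :
    ∫⁻ ω, (farthest ω T : ENNReal) ∂(mirrorLaw p) ≤
      ENNReal.ofReal (26 * ((p : ℝ) ^ 2 * (1 - p) ^ 3) ^ (-(1 / 16) : ℝ) *
        (T : ℝ) ^ (15 / 16 : ℝ)) := by
  have hp : 0 < 1 - (p : ℝ) := by linarith
  have hp1 : 1 - (p : ℝ) ≤ 1 := by linarith
  have hT0 : (0 : ℝ) < T := by exact_mod_cast hT
  have hT1 : (1 : ℝ) ≤ T := by exact_mod_cast hT
  set A : ℝ := (p : ℝ) ^ 2 * (1 - p) ^ 3 with hA
  have hA0 : 0 < A := by positivity
  have hA1 : A ≤ 1 := by
    have h2 : (p : ℝ) ^ 2 ≤ 1 := pow_le_one₀ h0.le h1.le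
    have h3 : (1 - (p : ℝ)) ^ 3 ≤ 1 := pow_le_one₀ hp.le hp1
    exact mul_le_one₀ h2 (by positivity) h3
  set u : ℝ := A ^ (-(1 / 16) : ℝ) * (T : ℝ) ^ (15 / 16 : ℝ) with hu
  have hu0 : 0 < u := by positivity
  have hu1 : 1 ≤ u := by
    have h2 : 1 ≤ A ^ (-(1 / 16) : ℝ) :=
      Real.one_le_rpow_of_pos_of_le_one_of_nonpos hA0 hA1 (by norm_num)
    have h3 : 1 ≤ (T : ℝ) ^ (15 / 16 : ℝ) := Real.one_le_rpow hT1 (by norm_num)
    calc (1 : ℝ) = 1 * 1 := by ring
      _ ≤ u := mul_le_mul h2 h3 (by norm_num) (by positivity)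
  set h : ℕ := ⌈u⌉₊ with hh
  have hh1 : 1 ≤ h := by rw [hh, Nat.one_le_ceil_iff]; exact hu0
  have hh0 : (0 : ℝ) < h := by exact_mod_cast hh1
  have hhu : u ≤ h := Nat.le_ceil u
  have hhu2 : (h : ℝ) ≤ 2 * u := by
    have := Nat.ceil_lt_add_one hu0.le
    linarith
  refine (lintegral_farthest p (T := T) hh1).trans (ENNReal.ofReal_le_ofReal ?_)
  -- the bound for `cc`
  have hKK : KK p * ((p : ℝ) * (1 - p)) ≤ 4 := by
    rw [KK_eq]
    have e : ((1 - (p : ℝ))⁻¹ + ((p : ℝ) / 2)⁻¹ + ((p : ℝ) / 2)⁻¹) * ((p : ℝ) * (1 - p)) =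
        4 - 3 * p := by
      have h2 : (p : ℝ) ≠ 0 := h0.ne'
      have h3 : (1 - (p : ℝ)) ≠ 0 := hp.ne'
      field_simp
      ring
    rw [e]
    linarith
  have hc0 := cc_nonneg p (h : ℤ)
  have hc : (cc p h) ^ 15 ≤ 6 ^ 15 / (A * h) := by
    have h2 := cc_bound h0 h1 hh1
    have h5 : (KK p * ((p : ℝ) * (1 - p))) ^ 2 ≤ 4 ^ 2 := by
      have := KK_ge h0 h1
      exact pow_le_pow_left₀ (by positivity) hKK 2
    rw [le_div_iff₀ (by positivity)]
    have e1 : cc p h ^ 15 * (A * h) =
        ((h : ℝ) * (1 - p) * cc p h ^ 15) * ((p : ℝ) * (1 - p)) ^ 2 := by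
      rw [hA]; ring
    have e2 : (6 * 108 ^ 2 * 288 ^ 2 * KK p ^ 2) * ((p : ℝ) * (1 - p)) ^ 2 =
        6 * 108 ^ 2 * 288 ^ 2 * (KK p * ((p : ℝ) * (1 - p))) ^ 2 := by ring
    rw [e1]
    refine (mul_le_mul_of_nonneg_right h2 (by positivity)).trans ?_
    rw [e2]
    norm_num at h5 ⊢
    linarith
  have hc2 : cc p h ≤ 6 * (A * h) ^ (-(1 / 15) : ℝ) := by
    have h4 : cc p h = ((cc p h) ^ 15) ^ ((1 / 15 : ℝ)) := by
      rw [← Real.rpow_natCast, ← Real.rpow_mul hc0]
      norm_num
    rw [h4]
    refine (Real.rpow_le_rpow (by positivity) hc (by norm_num)).trans (le_of_eq ?_)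
    rw [Real.div_rpow (by positivity) (by positivity), Real.rpow_neg (by positivity)]
    have h5 : ((6 : ℝ) ^ 15) ^ ((1 / 15 : ℝ)) = 6 := by
      rw [← Real.rpow_natCast, ← Real.rpow_mul (by norm_num)]
      norm_num
    rw [h5]
    rfl
  have hc3 : (A * h) ^ (-(1 / 15) : ℝ) ≤ (A * T) ^ (-(1 / 16) : ℝ) := by
    have h2 : (A * T) ^ (15 / 16 : ℝ) ≤ A * h := by
      have h3 : (A * T) ^ (15 / 16 : ℝ) = A * u := by
        rw [hu, Real.mul_rpow hA0.le hT0.le, ← mul_assoc]
        congr 1
        have h4 : A = A ^ (1 : ℝ) := (Real.rpow_one A).symm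
        conv_rhs => rw [h4, ← Real.rpow_mul hA0.le, ← Real.rpow_add hA0]
        norm_num
      rw [h3]
      exact mul_le_mul_of_nonneg_left hhu hA0.le
    have h3 : (A * T) ^ (-(1 / 16) : ℝ) = ((A * T) ^ (15 / 16 : ℝ)) ^ (-(1 / 15) : ℝ) := by
      rw [← Real.rpow_mul (by positivity)]
      norm_num
    rw [h3]
    exact Real.rpow_le_rpow_of_nonpos (by positivity) h2 (by norm_num)
  have hc4 : (T : ℝ) * (A * T) ^ (-(1 / 16) : ℝ) = u := by
    rw [hu, Real.mul_rpow hA0.le hT0.le, mul_left_comm]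
    congr 1
    have h4 : (T : ℝ) = (T : ℝ) ^ (1 : ℝ) := (Real.rpow_one _).symm
    conv_lhs => rw [h4, ← Real.rpow_mul hT0.le, ← Real.rpow_add hT0]
    norm_num
  have hfin : (T : ℝ) * (4 * cc p h) ≤ 24 * u := by
    have h2 : cc p h ≤ 6 * (A * T) ^ (-(1 / 16) : ℝ) :=
      hc2.trans (mul_le_mul_of_nonneg_left hc3 (by norm_num))
    have h3 : (T : ℝ) * (4 * cc p h) ≤ T * (4 * (6 * (A * T) ^ (-(1 / 16) : ℝ))) := by
      gcongr
    have h4 : (T : ℝ) * (4 * (6 * (A * T) ^ (-(1 / 16) : ℝ))) =
        24 * (T * (A * T) ^ (-(1 / 16) : ℝ)) := by ring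
    rw [h4, hc4] at h3
    exact h3
  have : 26 * A ^ (-(1 / 16) : ℝ) * (T : ℝ) ^ (15 / 16 : ℝ) = 26 * u := by rw [hu]; ring
  rw [this]
  linarith

end Pool.Agent.Helper894_Mirror
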